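import Pool.Agent.Helper34.CP.Final

set_option autoImplicit false

namespace Pool.Agent.Helper34.CP

open Finset

theorem dg_univ {V : Type} [Fintype V] [DecidableEq V] (G : SimpleGraph V) [DecidableRel G.Adj]
    (v : V) : dg G univ v = G.degree v := by
  unfold dg
  rw [← SimpleGraph.card_neighborFinset_eq_degree, SimpleGraph.neighborFinset_eq_filter]
  congr 1
  ext w
  simp [G.adj_comm]

theorem degree_main (Δ m : ℕ) (hm : 10 ^ 10 ≤ m) (hΔ : 8 * Δ ≤ 5 * m)
    (V : Type) [Fintype V] [DecidableEq V] (G : SimpleGraph V) [DecidableRel G.Adj]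
    (hdeg : ∀ v, G.degree v ≤ Δ)
    (σ : V → V → Equiv.Perm (Fin m)) (hσ : ∀ u v, G.Adj u v → σ v u = (σ u v).symm) :
    ∃ c : Fin m → V → Fin m,
      (∀ v, Function.Injective (fun i => c i v)) ∧
      ∀ i u v, G.Adj u v → c i v ≠ σ u v (c i u) := by
  apply to_colourings
  obtain ⟨y, hy⟩ : ∃ y, y = m / 10000 := ⟨_, rfl⟩
  have hc := chkD
  simp only [Bool.and_eq_true] at hc
  have hd : Dat 10000 19 20 lsT csD 5001 3749 6251 y m Δ := by
    refine ⟨by omega, by omega, by omega, by omega, by omega, by norm_num, hc.1, by decide,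
      hc.2.1, by norm_num, by norm_num, hc.2.2.1⟩
  refine deg_core G σ hσ Δ lsT.length y y (LamF y lsT) (wF y csD) _ _ _ _
    (num_inst hd (by omega)) ?_ ?_
  · intro v
    rw [dg_univ]
    exact hdeg v
  · intro d hd'
    exact vok_deg hd hc.2.2.2 d hd'

theorem mad_main (k m : ℕ) (hm : 10 ^ 10 ≤ m) (hk : 19 * k ≤ 10 * m)
    (V : Type) [Fintype V] [DecidableEq V] (G : SimpleGraph V) [DecidableRel G.Adj]
    (hmad : ∀ S : Finset V, S.Nonempty →
        ((S ×ˢ S).filter (fun p => G.Adj p.1 p.2)).card < k * S.card)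
    (σ : V → V → Equiv.Perm (Fin m)) (hσ : ∀ u v, G.Adj u v → σ v u = (σ u v).symm) :
    ∃ c : Fin m → V → Fin m,
      (∀ v, Function.Injective (fun i => c i v)) ∧
      ∀ i u v, G.Adj u v → c i v ≠ σ u v (c i u) := by
  apply to_colourings
  obtain ⟨y, hy⟩ : ∃ y, y = m / 10000 := ⟨_, rfl⟩
  obtain ⟨D, hD⟩ : ∃ D, D = 9 * k / 8 := ⟨_, rfl⟩
  have hc := chkM
  simp only [Bool.and_eq_true] at hc
  have hd : Dat 10000 19 20 lsT csM 5001 4078 5922 y m D := by
    refine ⟨by omega, by omega, by omega, by omega, by omega, by norm_num, hc.1, by decide,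
      hc.2.1, by norm_num, by norm_num, hc.2.2.1⟩
  refine mad_core G σ hσ k hmad D lsT.length y y 8 (LamF y lsT) (wF y csM) _ _ _ _
    (num_inst hd (by omega)) (by omega) (by omega) ?_ univ
  intro d x h1 h2
  exact vok_mad hd 8 5264 50 74 k (by norm_num) (by norm_num) (by omega) (by norm_num)
    hc.2.2.2 d x h1 h2

end Pool.Agent.Helper34.CP
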