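import Mathlib

set_option autoImplicit false

namespace Pool.Agent.Helper34.CP

open Finset

variable {V : Type} [Fintype V] [DecidableEq V] {m : ℕ}

/-- The permutations `π v` (index to colour) form a packing on `S`. -/
def PackOn (G : SimpleGraph V) (σ : V → V → Equiv.Perm (Fin m)) (S : Finset V)
    (π : V → Equiv.Perm (Fin m)) : Prop :=
  ∀ u ∈ S, ∀ v ∈ S, G.Adj u v → ∀ i, π v i ≠ σ u v (π u i)

/-- Admissible permutations at `v` given the packing `π` on `S`. -/
def Adm (G : SimpleGraph V) (σ : V → V → Equiv.Perm (Fin m)) (S : Finset V)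
    (π : V → Equiv.Perm (Fin m)) (v : V) (i b : Fin m) : Prop :=
  ∀ u ∈ S, G.Adj u v → b ≠ σ u v (π u i)

theorem packOn_insert (G : SimpleGraph V) (σ : V → V → Equiv.Perm (Fin m))
    (hσ : ∀ u v, G.Adj u v → σ v u = (σ u v).symm) (S : Finset V)
    (π : V → Equiv.Perm (Fin m)) (hπ : PackOn G σ S π) (v : V) (hv : v ∉ S)
    (ρ : Equiv.Perm (Fin m)) (hρ : ∀ i, Adm G σ S π v i (ρ i)) :
    PackOn G σ (insert v S) (Function.update π v ρ) := by
  intro a ha b hb hab i
  rw [mem_insert] at ha hb
  by_cases hav : a = v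
  · subst hav
    have hba : b ≠ a := fun h => by subst h; exact G.loopless.irrefl _ hab
    have hbS : b ∈ S := hb.resolve_left hba
    rw [Function.update_self, Function.update_of_ne hba]
    have h := hρ i b hbS hab.symm
    intro h2
    apply h
    rw [h2]
    have := hσ b a hab.symm
    rw [this]
    simp
  · have haS : a ∈ S := ha.resolve_left hav
    by_cases hbv : b = v
    · subst hbv
      rw [Function.update_self, Function.update_of_ne hav]
      exact hρ i a haS hab
    · rw [Function.update_of_ne hav, Function.update_of_ne hbv]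
      exact hπ a haS b (hb.resolve_left hbv) hab i

/-- Hall: either an admissible permutation exists or a rectangle is fully blocked. -/
theorem exists_perm_or_blocked (H : Fin m → Fin m → Prop) [∀ i b, Decidable (H i b)] :
    (∃ ρ : Equiv.Perm (Fin m), ∀ i, H i (ρ i)) ∨
    (∃ A B : Finset (Fin m), A.card + B.card = m + 1 ∧ ∀ a ∈ A, ∀ b ∈ B, ¬ H a b) := by
  classical
  by_cases h : ∀ s : Finset (Fin m), s.card ≤ (s.biUnion (fun i => univ.filter (fun b => H i b))).card
  · left
    obtain ⟨f, hf, hfm⟩ := (Finset.all_card_le_biUnion_card_iff_exists_injective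
      (fun i => univ.filter (fun b => H i b))).1 h
    refine ⟨Equiv.ofBijective f (Finite.injective_iff_bijective.1 hf), fun i => ?_⟩
    have := hfm i
    rw [mem_filter] at this
    exact this.2
  · right
    push Not at h
    obtain ⟨A, hA⟩ := h
    set t := A.biUnion (fun i => univ.filter (fun b => H i b)) with ht
    have hAm : A.card ≤ m := by simpa using card_le_univ A
    have hBc : m + 1 - A.card ≤ (tᶜ).card := by
      rw [card_compl, Fintype.card_fin]
      omega
    obtain ⟨B, hB, hBcard⟩ := exists_subset_card_eq hBc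
    refine ⟨A, B, by omega, ?_⟩
    intro a ha b hb hab
    have hb' := hB hb
    rw [mem_compl] at hb'
    apply hb'
    rw [ht, mem_biUnion]
    exact ⟨a, ha, by simp [hab]⟩

/-- Counting for a blocked rectangle. -/
theorem blocked_count (G : SimpleGraph V) [DecidableRel G.Adj] (σ : V → V → Equiv.Perm (Fin m))
    (S : Finset V) (π : V → Equiv.Perm (Fin m)) (v : V) (A B : Finset (Fin m))
    (h : ∀ a ∈ A, ∀ b ∈ B, ¬ Adm G σ S π v a b) :
    A.card * B.card ≤ ∑ u ∈ S.filter (fun u => G.Adj u v),
      (A.filter (fun a => σ u v (π u a) ∈ B)).card := by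
  classical
  rw [← card_product]
  have hsub : A ×ˢ B ⊆ (S.filter (fun u => G.Adj u v)).biUnion
      (fun u => (A.filter (fun a => σ u v (π u a) ∈ B)).image (fun a => (a, σ u v (π u a)))) := by
    rintro ⟨a, b⟩ hab
    rw [mem_product] at hab
    have := h a hab.1 b hab.2
    unfold Adm at this
    push Not at this
    obtain ⟨u, hu, huv, hb⟩ := this
    rw [mem_biUnion]
    refine ⟨u, by rw [mem_filter]; exact ⟨hu, huv⟩, ?_⟩
    rw [mem_image]
    refine ⟨a, ?_, by rw [hb]⟩
    rw [mem_filter]
    refine ⟨hab.1, ?_⟩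
    rw [← hb]
    exact hab.2
  refine (card_le_card hsub).trans (card_biUnion_le.trans ?_)
  exact sum_le_sum (fun u _ => card_image_le)

theorem hit_le_left (f : Equiv.Perm (Fin m)) (A B : Finset (Fin m)) :
    (A.filter (fun a => f a ∈ B)).card ≤ A.card := card_filter_le _ _

theorem hit_le_right (f : Equiv.Perm (Fin m)) (A B : Finset (Fin m)) :
    (A.filter (fun a => f a ∈ B)).card ≤ B.card := by
  refine card_le_card_of_injOn f ?_ (f.injective.injOn)
  intro a ha
  have ha' : a ∈ A.filter (fun a => f a ∈ B) := ha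
  rw [mem_filter] at ha'
  exact ha'.2

end Pool.Agent.Helper34.CP
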