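import Mathlib

set_option autoImplicit false

namespace Pool.Agent.Helper34.CP

open Finset

variable {V : Type} [DecidableEq V]

/-- number of neighbours in `F` -/
def dg (G : SimpleGraph V) [DecidableRel G.Adj] (F : Finset V) (v : V) : ℕ :=
  (F.filter (fun w => G.Adj w v)).card

theorem dg_insert (G : SimpleGraph V) [DecidableRel G.Adj] (F : Finset V) (v w : V) (hv : v ∉ F) :
    dg G (insert v F) w = dg G F w + if G.Adj v w then 1 else 0 := by
  unfold dg
  rw [filter_insert]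
  by_cases h : G.Adj v w
  · rw [if_pos h, if_pos h, card_insert_of_notMem]
    rw [mem_filter]
    rintro ⟨h, _⟩
    exact hv h
  · rw [if_neg h, if_neg h, Nat.add_zero]

theorem dg_insert_self (G : SimpleGraph V) [DecidableRel G.Adj] (F : Finset V) (v : V)
    (hv : v ∉ F) : dg G (insert v F) v = dg G F v := by
  rw [dg_insert G F v v hv, if_neg (G.loopless.irrefl v), Nat.add_zero]

/-- twice the number of edges inside `F` -/
def e2 (G : SimpleGraph V) [DecidableRel G.Adj] (F : Finset V) : ℕ := ∑ u ∈ F, dg G F u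

theorem e2_insert (G : SimpleGraph V) [DecidableRel G.Adj] (F : Finset V) (v : V) (hv : v ∉ F) :
    e2 G (insert v F) = e2 G F + 2 * dg G F v := by
  unfold e2
  rw [sum_insert hv, dg_insert_self G F v hv]
  have h1 : ∑ u ∈ F, dg G (insert v F) u = ∑ u ∈ F, dg G F u + dg G F v := by
    have : dg G F v = ∑ u ∈ F, if G.Adj v u then 1 else 0 := by
      unfold dg
      rw [card_filter]
      refine sum_congr rfl (fun u _ => ?_)
      by_cases h : G.Adj u v
      · rw [if_pos h, if_pos h.symm]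
      · rw [if_neg h, if_neg (fun h' => h h'.symm)]
    rw [this, ← sum_add_distrib]
    exact sum_congr rfl (fun u _ => dg_insert G F v u hv)
  rw [h1]
  ring

theorem e2_erase (G : SimpleGraph V) [DecidableRel G.Adj] (F : Finset V) (v : V) (hv : v ∈ F) :
    e2 G F = e2 G (F.erase v) + 2 * dg G F v := by
  have h1 := e2_insert G (F.erase v) v (notMem_erase v F)
  rw [insert_erase hv] at h1
  have h2 := dg_insert_self G (F.erase v) v (notMem_erase v F)
  rw [insert_erase hv] at h2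
  rw [h1, h2]

theorem exists_balanced (G : SimpleGraph V) [DecidableRel G.Adj] (T F0 : Finset V) (hF0 : F0 ⊆ T)
    (x : V → ℕ) (lam : ℕ) :
    ∃ F, F0 ⊆ F ∧ F ⊆ T ∧ (∀ u ∈ F \ F0, x u + dg G F u ≤ lam) ∧
      ∀ v ∈ T \ F, lam ≤ x v + dg G F v := by
  obtain ⟨F, hF, hmin⟩ := exists_min_image (T.powerset.filter (fun F => F0 ⊆ F))
    (fun F => (e2 G F : ℤ) + 2 * ((∑ v ∈ F, x v : ℕ) : ℤ) - 2 * lam * F.card)
    ⟨F0, by rw [mem_filter, mem_powerset]; exact ⟨hF0, Subset.refl _⟩⟩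
  rw [mem_filter, mem_powerset] at hF
  obtain ⟨hF, hF0F⟩ := hF
  refine ⟨F, hF0F, hF, ?_, ?_⟩
  · intro u hu
    rw [mem_sdiff] at hu
    have h1 := hmin (F.erase u) (by
      rw [mem_filter, mem_powerset]
      exact ⟨(erase_subset _ _).trans hF, subset_erase.2 ⟨hF0F, hu.2⟩⟩)
    have h2 := e2_erase G F u hu.1
    have h3 := card_erase_add_one hu.1
    have h4 := add_sum_erase F x hu.1
    rw [h2, ← h4] at h1
    have h3' : (F.card : ℤ) = ((F.erase u).card : ℤ) + 1 := by exact_mod_cast h3.symm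
    rw [h3'] at h1
    push_cast at h1
    have : (x u : ℤ) + (dg G F u : ℤ) ≤ lam := by nlinarith
    exact_mod_cast this
  · intro v hv
    rw [mem_sdiff] at hv
    have h1 := hmin (insert v F) (by
      rw [mem_filter, mem_powerset]
      exact ⟨insert_subset hv.1 hF, hF0F.trans (subset_insert _ _)⟩)
    have h2 := e2_insert G F v hv.2
    have h3 := card_insert_of_notMem hv.2
    have h4 := sum_insert (f := x) hv.2
    rw [h2, h3, h4] at h1
    push_cast at h1
    have : (lam : ℤ) ≤ (x v : ℤ) + dg G F v := by nlinarith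
    exact_mod_cast this

theorem exists_layers (G : SimpleGraph V) [DecidableRel G.Adj] (T : Finset V)
    (x : V → ℕ) (Lam : ℕ → ℕ) :
    ∃ F : ℕ → Finset V, F 0 = ∅ ∧ (∀ i, F i ⊆ F (i + 1)) ∧ (∀ i, F i ⊆ T) ∧
      (∀ i, ∀ u ∈ F (i + 1) \ F i, x u + dg G (F (i + 1)) u ≤ Lam i) ∧
      ∀ i, ∀ v ∈ T \ F (i + 1), Lam i ≤ x v + dg G (F (i + 1)) v := by
  have key : ∀ (i : ℕ) (F0 : {F : Finset V // F ⊆ T}), ∃ F : {F : Finset V // F ⊆ T},
      F0.1 ⊆ F.1 ∧ (∀ u ∈ F.1 \ F0.1, x u + dg G F.1 u ≤ Lam i) ∧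
      ∀ v ∈ T \ F.1, Lam i ≤ x v + dg G F.1 v := by
    intro i F0
    obtain ⟨F, h1, h2, h3, h4⟩ := exists_balanced G T F0.1 F0.2 x (Lam i)
    exact ⟨⟨F, h2⟩, h1, h3, h4⟩
  choose nx hnx using key
  let Fs : ℕ → {F : Finset V // F ⊆ T} := fun n => Nat.rec ⟨∅, empty_subset _⟩ (fun i F => nx i F) n
  have hs : ∀ i, Fs (i + 1) = nx i (Fs i) := fun i => rfl
  refine ⟨fun i => (Fs i).1, rfl, ?_, ?_, ?_, ?_⟩
  · intro i
    have := (hnx i (Fs i)).1
    rw [← hs i] at this
    exact this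
  · intro i
    exact (Fs i).2
  · intro i
    have := (hnx i (Fs i)).2.1
    rw [← hs i] at this
    exact this
  · intro i
    have := (hnx i (Fs i)).2.2
    rw [← hs i] at this
    exact this

theorem dg_sdiff (G : SimpleGraph V) [DecidableRel G.Adj] (S T : Finset V) (hTS : T ⊆ S) (v : V) :
    dg G S v = dg G T v + dg G (S \ T) v := by
  unfold dg
  rw [← card_union_of_disjoint, ← filter_union, union_sdiff_of_subset hTS]
  exact disjoint_filter_filter disjoint_sdiff

theorem exists_T (G : SimpleGraph V) [DecidableRel G.Adj] (S S' : Finset V) (hS' : S' ⊆ S)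
    (κ : V → ℕ) (h : 2 * ∑ v ∈ S', dg G S v < e2 G S' + ∑ v ∈ S', κ v) :
    ∃ T ⊆ S', T.Nonempty ∧ ∀ v ∈ T, 2 * dg G (S \ T) v ≤ κ v := by
  obtain ⟨T, hT, hmin⟩ := exists_min_image (S'.powerset)
    (fun T => (2 * ((∑ v ∈ T, dg G S v : ℕ) : ℤ) - (e2 G T : ℤ) - ((∑ v ∈ T, κ v : ℕ) : ℤ)))
    ⟨∅, empty_mem_powerset _⟩
  rw [mem_powerset] at hT
  have hneg := hmin S' (mem_powerset_self _)
  refine ⟨T, hT, ?_, ?_⟩
  · rw [nonempty_iff_ne_empty]
    intro he
    rw [he] at hneg
    unfold e2 at hneg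
    simp only [sum_empty] at hneg
    have h' : (2 * ((∑ v ∈ S', dg G S v : ℕ) : ℤ)) < (e2 G S' : ℤ) + ((∑ v ∈ S', κ v : ℕ) : ℤ) := by
      exact_mod_cast h
    unfold e2 at h'
    push_cast at h' hneg
    linarith
  · intro v hv
    have h1 := hmin (T.erase v) (by rw [mem_powerset]; exact (erase_subset _ _).trans hT)
    have h2 := e2_erase G T v hv
    have h4 := add_sum_erase T (fun v => dg G S v) hv
    have h6 := add_sum_erase T κ hv
    have h5 := dg_sdiff G S T (hT.trans hS') v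
    rw [h2, ← h4, ← h6, h5] at h1
    push_cast at h1
    have : 2 * (dg G (S \ T) v : ℤ) ≤ κ v := by linarith
    exact_mod_cast this

end Pool.Agent.Helper34.CP
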