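import Pool.Agent.Helper34.CP.Potential
import Pool.Agent.Helper34.CP.Select

set_option autoImplicit false

namespace Pool.Agent.Helper34.CP

open Finset

/-- the relevant rectangles -/
def rects (m D : ℕ) : Finset (Finset (Fin m) × Finset (Fin m)) :=
  univ.filter (fun p => p.1.card + p.2.card = m + 1 ∧ max p.1.card p.2.card ≤ D)

theorem card_rects (m D : ℕ) : (rects m D).card ≤ 4 ^ m := by
  refine (card_le_univ _).trans ?_
  rw [Fintype.card_prod, Fintype.card_finset, Fintype.card_fin, ← mul_pow]
  norm_num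

theorem bad_mul {m : ℕ} (t : ℕ) (A B : Finset (Fin m)) (s ρ : Equiv.Perm (Fin m)) :
    Bad t A B (s * ρ) ↔ Bad t A (B.map s.symm.toEmbedding) ρ := by
  unfold Bad hits
  rw [card_map]
  have : (A.filter (fun a => (s * ρ) a ∈ B)) = (A.filter (fun a => ρ a ∈ B.map s.symm.toEmbedding)) := by
    ext a
    rw [mem_filter, mem_filter, mem_map]
    refine and_congr_right (fun _ => ?_)
    constructor
    · intro h
      exact ⟨_, h, by simp⟩
    · rintro ⟨b, hb, hb2⟩
      rw [Equiv.Perm.mul_apply, ← hb2]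
      simpa using hb
  rw [this]

variable {V : Type} [Fintype V] [DecidableEq V] {m : ℕ}

theorem hits_le_min (A B : Finset (Fin m)) (f : Equiv.Perm (Fin m)) :
    hits A B f ≤ min A.card B.card :=
  le_min (hit_le_left f A B) (hit_le_right f A B)

theorem not_bad_zero (A B : Finset (Fin m)) (f : Equiv.Perm (Fin m)) : ¬ Bad 0 A B f := by
  unfold Bad
  have := hits_le_min A B f
  omega

/-- number of bad coloured neighbours -/
def bc (G : SimpleGraph V) [DecidableRel G.Adj] (σ : V → V → Equiv.Perm (Fin m))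
    (τ : V → ℕ → ℕ)
    (F' : Finset V) (π : V → Equiv.Perm (Fin m)) (v : V)
    (r : Finset (Fin m) × Finset (Fin m)) : ℕ :=
  (F'.filter (fun u => G.Adj u v ∧ Bad (τ u (min r.1.card r.2.card)) r.1 r.2 (σ u v * π u))).card

theorem bc_insert (G : SimpleGraph V) [DecidableRel G.Adj] (σ : V → V → Equiv.Perm (Fin m))
    (τ : V → ℕ → ℕ)
    (F' : Finset V) (π : V → Equiv.Perm (Fin m)) (v : V)
    (r : Finset (Fin m) × Finset (Fin m)) (u : V) (hu : u ∉ F') (ρ : Equiv.Perm (Fin m)) :
    bc G σ τ (insert u F') (Function.update π u ρ) v r = bc G σ τ F' π v r +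
      if G.Adj u v ∧ Bad (τ u (min r.1.card r.2.card)) r.1 r.2 (σ u v * ρ) then 1 else 0 := by
  unfold bc
  have h1 : F'.filter (fun w => G.Adj w v ∧
      Bad (τ w (min r.1.card r.2.card)) r.1 r.2 (σ w v * (Function.update π u ρ) w)) =
      F'.filter (fun w => G.Adj w v ∧ Bad (τ w (min r.1.card r.2.card)) r.1 r.2 (σ w v * π w)) := by
    refine filter_congr (fun w hw => ?_)
    have : w ≠ u := fun h => hu (h ▸ hw)
    rw [Function.update_of_ne this]
  rw [filter_insert]
  by_cases h : G.Adj u v ∧ Bad (τ u (min r.1.card r.2.card)) r.1 r.2 (σ u v * ρ)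
  · rw [if_pos h, if_pos (by rw [Function.update_self]; exact h), card_insert_of_notMem, h1]
    rw [mem_filter]
    rintro ⟨h, _⟩
    exact hu h
  · rw [if_neg h, if_neg (by rw [Function.update_self]; exact h), h1, Nat.add_zero]

theorem color_layer (G : SimpleGraph V) [DecidableRel G.Adj] (σ : V → V → Equiv.Perm (Fin m))
    (hσ : ∀ u v, G.Adj u v → σ v u = (σ u v).symm) (hm : 0 < m)
    (τ : V → ℕ → ℕ)
    (U0 P F N : Finset V) (hFU : Disjoint F U0) (hPU : P ⊆ U0)
    (π0 : V → Equiv.Perm (Fin m)) (h0 : PackOn G σ U0 π0)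
    (Lam D g : ℕ) (x C ω η : ℝ)
    (hpot0 : ∀ v ∈ N, ∑ r ∈ rects m D, ω ^ (bc G σ τ P π0 v r) ≤
        4 ^ m * (1 + η) ^ (dg G P v))
    (hdeg : ∀ u ∈ F, dg G (U0 ∪ F) u ≤ Lam) (hLam : 2 * Lam ≤ m)
    (hN : ∀ u ∈ F, (N.filter (fun v => G.Adj u v)).card ≤ D)
    (hτ : ∀ u ∈ F, ∀ q Q, q + Q = m + 1 → q ≤ Q → Q ≤ D → τ u q = 0 ∨
      ∃ j0, τ u q + g ≤ j0 ∧ 2 * j0 ≤ m ∧ RowOK m (m - Lam) q Q j0 x)
    (hx : 0 < x) (hx1 : x ≤ 1) (hC : 0 ≤ C) (hxC : x * (C + 1) ≤ C)
    (hω : 1 ≤ ω) (hη0 : 0 ≤ η) (hη : (D : ℝ) * ((ω - 1) * (C * x ^ g)) ≤ η)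
    (F' : Finset V) (hF' : F' ⊆ F) :
    ∃ π, PackOn G σ (U0 ∪ F') π ∧ ∀ v ∈ N,
      ∑ r ∈ rects m D, ω ^ (bc G σ τ (P ∪ F') π v r) ≤
        4 ^ m * (1 + η) ^ (dg G (P ∪ F') v) := by
  classical
  induction F' using Finset.induction_on with
  | empty =>
    refine ⟨π0, by simpa using h0, fun v hv => ?_⟩
    rw [union_empty]
    exact hpot0 v hv
  | insert u F' hu ih =>
    have huF : u ∈ F := hF' (mem_insert_self _ _)
    have hF'F : F' ⊆ F := (subset_insert _ _).trans hF'
    obtain ⟨π, hπ, hpot⟩ := ih hF'F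
    set U := U0 ∪ F' with hU
    have huU : u ∉ U := by
      rw [hU, mem_union]
      rintro (h | h)
      · exact (disjoint_left.1 hFU) huF h
      · exact hu h
    have huP : u ∉ P ∪ F' := by
      intro h
      apply huU
      rw [mem_union] at h
      rw [hU, mem_union]
      exact h.imp (fun h => hPU h) id
    have hdegu : (U.filter (fun w => G.Adj w u)).card ≤ Lam := by
      refine le_trans ?_ (hdeg u huF)
      exact card_le_card (filter_subset_filter _ (union_subset_union_right hF'F))
    have hdδ : Lam + (m - Lam) ≤ m := by omega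
    have hmδ : m ≤ 2 * (m - Lam) := by omega
    have hrow := adm_row G σ U π u Lam (m - Lam) hdegu hdδ
    have hcol := adm_col G σ U π u Lam (m - Lam) hdegu hdδ
    have hPne := admS_nonempty (Adm G σ U π u) (m - Lam) hrow hcol hmδ
    have hρ0 : 0 ≤ C * x ^ g := by positivity
    obtain ⟨ρ, hρP, hρ⟩ := avg_step (admS (Adm G σ U π u)) hPne (N.filter (fun v => G.Adj u v))
      (rects m D) (fun v r => bc G σ τ (P ∪ F') π v r)
      (fun v r ρ => Bad (τ u (min r.1.card r.2.card)) r.1 r.2 (σ u v * ρ))
      (fun v => 4 ^ m * (1 + η) ^ (dg G (P ∪ F') v)) ω (C * x ^ g) η hω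
      (fun v _ => by positivity)
      (fun v hv => hpot v (mem_of_mem_filter v hv))
      (by
        intro v hv r hr
        unfold rects at hr
        rw [mem_filter] at hr
        obtain ⟨_, hr1, hr2⟩ := hr
        have he : (admS (Adm G σ U π u)).filter
            (fun ρ => Bad (τ u (min r.1.card r.2.card)) r.1 r.2 (σ u v * ρ)) =
            (admS (Adm G σ U π u)).filter
              (fun ρ => Bad (τ u (min r.1.card r.2.card)) r.1 (r.2.map (σ u v).symm.toEmbedding) ρ) :=
          filter_congr (fun ρ _ => bad_mul _ r.1 r.2 (σ u v) ρ)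
        rw [he]
        have hqQ : min r.1.card r.2.card + max r.1.card r.2.card = m + 1 := by
          rw [min_add_max]; exact hr1
        rcases hτ u huF _ _ hqQ min_le_max hr2 with h0 | ⟨j0, hj1, hj2, hj3⟩
        · have : (admS (Adm G σ U π u)).filter
              (fun ρ => Bad (τ u (min r.1.card r.2.card)) r.1
                (r.2.map (σ u v).symm.toEmbedding) ρ) = ∅ := by
            rw [filter_eq_empty_iff]
            intro ρ _
            rw [h0]
            exact not_bad_zero _ _ _
          rw [this, card_empty]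
          push_cast
          positivity
        · have h := bad_fraction_both (Adm G σ U π u) r.1 (r.2.map (σ u v).symm.toEmbedding)
            (m - Lam) j0 (τ u (min r.1.card r.2.card)) x C hm
            hrow hcol (by rw [card_map]; exact hj3) hj2 hx hC hxC (by omega)
          refine h.trans ?_
          refine mul_le_mul_of_nonneg_right ?_ (Nat.cast_nonneg _)
          refine mul_le_mul_of_nonneg_left ?_ hC
          exact pow_le_pow_of_le_one hx.le hx1 (by omega))
      hρ0
      (by
        refine le_trans ?_ hη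
        refine mul_le_mul_of_nonneg_right ?_ (by
          have : 0 ≤ ω - 1 := by linarith
          positivity)
        exact_mod_cast hN u huF)
    refine ⟨Function.update π u ρ, ?_, ?_⟩
    · have h1 : U0 ∪ insert u F' = insert u U := by
        rw [hU, union_insert]
      rw [h1]
      refine packOn_insert G σ hσ U π hπ u huU ρ (fun i => ?_)
      unfold admS at hρP
      rw [mem_filter] at hρP
      exact hρP.2 i
    · intro v hv
      have hins : P ∪ insert u F' = insert u (P ∪ F') := union_insert _ _ _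
      rw [hins]
      have h2 := dg_insert G (P ∪ F') u v huP
      by_cases huv : G.Adj u v
      · have h1 := hρ v (by rw [mem_filter]; exact ⟨hv, huv⟩)
        rw [if_pos huv] at h2
        rw [h2]
        calc ∑ r ∈ rects m D, ω ^ bc G σ τ (insert u (P ∪ F')) (Function.update π u ρ) v r
            = ∑ r ∈ rects m D, ω ^ (bc G σ τ (P ∪ F') π v r +
                if Bad (τ u (min r.1.card r.2.card)) r.1 r.2 (σ u v * ρ) then 1 else 0) := by
              refine sum_congr rfl (fun r _ => ?_)
              rw [bc_insert G σ τ (P ∪ F') π v r u huP ρ]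
              simp only [huv, true_and]
          _ ≤ (1 + η) * (4 ^ m * (1 + η) ^ (dg G (P ∪ F') v)) := h1
          _ = 4 ^ m * (1 + η) ^ (dg G (P ∪ F') v + 1) := by ring
      · rw [if_neg huv, Nat.add_zero] at h2
        rw [h2]
        calc ∑ r ∈ rects m D, ω ^ bc G σ τ (insert u (P ∪ F')) (Function.update π u ρ) v r
            = ∑ r ∈ rects m D, ω ^ (bc G σ τ (P ∪ F') π v r) := by
              refine sum_congr rfl (fun r _ => ?_)
              rw [bc_insert G σ τ (P ∪ F') π v r u huP ρ]
              simp only [huv, false_and, if_false, Nat.add_zero]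
          _ ≤ _ := hpot v hv

end Pool.Agent.Helper34.CP
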