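import Pool.Agent.Helper34.CP.Step

set_option autoImplicit false

namespace Pool.Agent.Helper34.CP

open Finset

section
variable {V : Type} [DecidableEq V]

omit [DecidableEq V] in
theorem sum_dg_comm (G : SimpleGraph V) [DecidableRel G.Adj] (A B : Finset V) :
    ∑ v ∈ A, dg G B v = ∑ v ∈ B, dg G A v := by
  unfold dg
  simp only [card_filter]
  rw [sum_comm]
  refine sum_congr rfl (fun v _ => sum_congr rfl (fun w _ => ?_))
  by_cases h : G.Adj v w
  · rw [if_pos h, if_pos h.symm]
  · rw [if_neg h, if_neg (fun h' => h h'.symm)]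

omit [DecidableEq V] in
theorem card_pairs (G : SimpleGraph V) [DecidableRel G.Adj] (S : Finset V) :
    ((S ×ˢ S).filter (fun p => G.Adj p.1 p.2)).card = ∑ v ∈ S, dg G S v := by
  rw [card_filter, sum_product]
  unfold dg
  refine sum_congr rfl (fun v _ => ?_)
  rw [card_filter]
  refine sum_congr rfl (fun w _ => ?_)
  by_cases h : G.Adj v w
  · rw [if_pos h, if_pos h.symm]
  · rw [if_neg h, if_neg (fun h' => h h'.symm)]

end

variable {V : Type} [Fintype V] [DecidableEq V] {m : ℕ}

theorem mad_core (G : SimpleGraph V) [DecidableRel G.Adj] (σ : V → V → Equiv.Perm (Fin m))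
    (hσ : ∀ u v, G.Adj u v → σ v u = (σ u v).symm) (k : ℕ)
    (hmad : ∀ S : Finset V, S.Nonempty →
        ((S ×ˢ S).filter (fun p => G.Adj p.1 p.2)).card < k * S.card)
    (D r g c0 L : ℕ) (Lam : ℕ → ℕ) (w : ℕ → ℕ → ℕ) (x C ω η : ℝ)
    (hn : Num m D r Lam w g c0 x C ω η)
    (hD1 : L * D ≤ (L + 1) * k) (hD2 : (L + 1) * k ≤ L * (D + 1))
    (hV : ∀ d y, m + 1 ≤ 2 * d → 2 * y + L * d ≤ (L + 1) * k → VOK m D r Lam w c0 d y)
    (S : Finset V) : ∃ π, PackOn G σ S π := by
  classical
  induction S using Finset.strongInduction with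
  | H S ih =>
    rcases S.eq_empty_or_nonempty with hS | hS
    · refine ⟨fun _ => 1, ?_⟩
      intro u hu
      rw [hS] at hu
      exact absurd hu (notMem_empty u)
    by_cases hsm : ∃ v ∈ S, 2 * dg G S v ≤ m
    · obtain ⟨v, hv, hd⟩ := hsm
      obtain ⟨π0, h0⟩ := ih (S.erase v) (erase_ssubset hv)
      exact small_degree G σ hσ S v hv hd π0 h0
    push Not at hsm
    set S' := S.filter (fun v => dg G S v ≤ D) with hS'
    have hS'S : S' ⊆ S := filter_subset _ _
    have hm1 := hmad S hS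
    rw [card_pairs] at hm1
    have e1 : ∑ v ∈ S', dg G S v = ∑ v ∈ S', dg G S' v + ∑ v ∈ S', dg G (S \ S') v := by
      rw [← sum_add_distrib]
      exact sum_congr rfl (fun v _ => dg_sdiff G S S' hS'S v)
    have e2' : ∑ v ∈ S', dg G (S \ S') v ≤ ∑ v ∈ S \ S', dg G S v := by
      rw [sum_dg_comm]
      refine sum_le_sum (fun v _ => ?_)
      exact card_le_card (filter_subset_filter _ hS'S)
    have e3 : ∑ v ∈ S \ S', dg G S v + ∑ v ∈ S', dg G S v = ∑ v ∈ S, dg G S v :=
      sum_sdiff hS'S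
    set κ : V → ℕ := fun v => (L + 1) * k - L * dg G S v with hκ
    have e4 : (((L + 1) * k : ℕ) : ℤ) * S.card - L * ((∑ v ∈ S, dg G S v : ℕ) : ℤ) ≤
        ((∑ v ∈ S', κ v : ℕ) : ℤ) := by
      have h1 : (((L + 1) * k : ℕ) : ℤ) * S.card - L * ((∑ v ∈ S, dg G S v : ℕ) : ℤ) =
          ∑ v ∈ S, ((((L + 1) * k : ℕ) : ℤ) - L * (dg G S v : ℤ)) := by
        rw [sum_sub_distrib, sum_const, nsmul_eq_mul, ← mul_sum]
        push_cast
        ring
      rw [h1, ← sum_sdiff hS'S]
      push_cast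
      have h2 : ∑ v ∈ S \ S', (((L : ℤ) + 1) * k - L * (dg G S v : ℤ)) ≤ 0 := by
        refine sum_nonpos (fun v hv => ?_)
        rw [mem_sdiff, hS', mem_filter] at hv
        have h3 : D + 1 ≤ dg G S v := by
          have := hv.2
          push Not at this
          exact this hv.1
        have h4 : (L + 1) * k ≤ L * dg G S v := hD2.trans (Nat.mul_le_mul_left _ h3)
        have h5 : (((L + 1) * k : ℕ) : ℤ) ≤ ((L * dg G S v : ℕ) : ℤ) := by exact_mod_cast h4
        push_cast at h5
        linarith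
      have h3 : ∑ v ∈ S', (((L : ℤ) + 1) * k - L * (dg G S v : ℤ)) ≤ ∑ v ∈ S', ((κ v : ℕ) : ℤ) := by
        refine sum_le_sum (fun v _ => ?_)
        rw [hκ]
        simp only
        have h4 : (L + 1) * k ≤ ((L + 1) * k - L * dg G S v) + L * dg G S v := by omega
        have h5 : (((L + 1) * k : ℕ) : ℤ) ≤
            ((((L + 1) * k - L * dg G S v) + L * dg G S v : ℕ) : ℤ) := by exact_mod_cast h4
        push_cast at h5 ⊢
        linarith
      linarith
    obtain ⟨T, hTS', hTne, hT⟩ := exists_T G S S' hS'S κ (by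
      unfold e2
      zify at hm1 e1 e2' e3
      push_cast at e4 hm1 e1 e2' e3 ⊢
      have hL0 : (0 : ℤ) ≤ L := Int.natCast_nonneg _
      nlinarith)
    have hTS : T ⊆ S := hTS'.trans hS'S
    have hss : S \ T ⊂ S := by
      refine (ssubset_iff_subset_ne).2 ⟨sdiff_subset, fun h => ?_⟩
      obtain ⟨v, hv⟩ := hTne
      have : v ∈ S \ T := by rw [h]; exact hTS hv
      exact (mem_sdiff.1 this).2 hv
    obtain ⟨π0, h0⟩ := ih (S \ T) hss
    have hTD : ∀ v ∈ T, dg G S v ≤ D := by
      intro v hv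
      have := hTS' hv
      rw [hS', mem_filter] at this
      exact this.2
    refine local_step G σ hσ S T hTS D r g c0 Lam w x C ω η hn π0 h0 hTD ?_
    intro v hv
    have h1 := hT v hv
    have h2 := hsm v (hTS hv)
    have h3 : L * dg G S v ≤ (L + 1) * k := (Nat.mul_le_mul_left _ (hTD v hv)).trans hD1
    refine hV _ _ (by omega) ?_
    rw [hκ] at h1
    simp only at h1
    omega

theorem deg_core (G : SimpleGraph V) [DecidableRel G.Adj] (σ : V → V → Equiv.Perm (Fin m))
    (hσ : ∀ u v, G.Adj u v → σ v u = (σ u v).symm)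
    (D r g c0 : ℕ) (Lam : ℕ → ℕ) (w : ℕ → ℕ → ℕ) (x C ω η : ℝ)
    (hn : Num m D r Lam w g c0 x C ω η)
    (hdeg : ∀ v, dg G univ v ≤ D) (hV : ∀ d ≤ D, VOK m D r Lam w c0 d 0) :
    ∃ π, PackOn G σ univ π := by
  refine local_step G σ hσ univ univ (Subset.refl _) D r g c0 Lam w x C ω η hn (fun _ => 1) ?_
    (fun v _ => hdeg v) ?_
  · intro u hu
    simp at hu
  · intro v _
    have : dg G (univ \ univ) v = 0 := by simp [dg]
    rw [this]
    exact hV _ (hdeg v)

omit [DecidableEq V] in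
/-- from packings to families of colourings -/
theorem to_colourings (G : SimpleGraph V) (σ : V → V → Equiv.Perm (Fin m))
    (h : ∃ π, PackOn G σ univ π) :
    ∃ c : Fin m → V → Fin m,
      (∀ v, Function.Injective (fun i => c i v)) ∧
      ∀ i u v, G.Adj u v → c i v ≠ σ u v (c i u) := by
  obtain ⟨π, hπ⟩ := h
  exact ⟨fun i v => π v i, fun v => (π v).injective,
    fun i u v huv => hπ u (mem_univ _) v (mem_univ _) huv i⟩

end Pool.Agent.Helper34.CP
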