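import Pool.Agent.Helper34.CP.Switch

set_option autoImplicit false

namespace Pool.Agent.Helper34.CP

open Finset

variable {m : ℕ}

/-- all admissible permutations -/
def admS (H : Fin m → Fin m → Prop) [∀ i b, Decidable (H i b)] : Finset (Equiv.Perm (Fin m)) :=
  univ.filter (fun π => ∀ i, H i (π i))

theorem mul_sub_mono (a b m : ℕ) (hab : a ≤ b) (hb : 2 * b ≤ m) : a * (m - a) ≤ b * (m - b) := by
  obtain ⟨c, rfl⟩ := Nat.exists_eq_add_of_le hab
  have h1 : a ≤ m := by omega
  have h2 : a + c ≤ m := by omega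
  zify [h1, h2]
  have h3 : (2 * (a + c) : ℤ) ≤ m := by exact_mod_cast hb
  have hc : (0 : ℤ) ≤ c := Int.natCast_nonneg _
  have ha : (0 : ℤ) ≤ a := Int.natCast_nonneg _
  nlinarith

/-- The numeric condition making the switching ratio at most `x`. -/
def RowOK (m δ q Q j0 : ℕ) (x : ℝ) : Prop :=
  (j0 : ℝ) * (((Q + j0 - q) * (m - j0) : ℕ) : ℝ) ≤
      x * (((q - j0) * ((δ - Q - j0) * (2 * δ - m - 2 - j0)) : ℕ) : ℝ)

theorem decay_one (H : Fin m → Fin m → Prop) [∀ i b, Decidable (H i b)] (A B : Finset (Fin m))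
    (hAB : A.card ≤ B.card)
    (δ j0 : ℕ) (x : ℝ) (hm : 0 < m)
    (hrow : ∀ i, δ ≤ (univ.filter (fun b => H i b)).card)
    (hcol : ∀ b, δ ≤ (univ.filter (fun i => H i b)).card)
    (hnum : RowOK m δ A.card B.card j0 x) (hj0 : 2 * j0 ≤ m)
    (hx : 0 < x) (j : ℕ) (hj : j < j0) :
    ((cls H A B j).card : ℝ) ≤ x * ((cls H A B (j + 1)).card : ℝ) := by
  unfold RowOK at hnum
  set P : ℕ := (A.card - j0) * ((δ - B.card - j0) * (2 * δ - m - 2 - j0)) with hP
  set M : ℕ := (B.card + j0 - A.card) * (m - j0) with hM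
  have h1 : (cls H A B j).card * P ≤ (cls H A B (j + 1)).card * (j0 * M) := by
    refine le_trans ?_ ((switch_ineq H A B hAB δ j hrow hcol).trans ?_)
    · refine Nat.mul_le_mul_left _ ?_
      rw [hP]
      refine Nat.mul_le_mul (by omega) (Nat.mul_le_mul (by omega) (by omega))
    · refine Nat.mul_le_mul_left _ ?_
      have h2 := mul_sub_mono (j + 1) j0 m (by omega) hj0
      have h3 : B.card + (j + 1) - A.card ≤ B.card + j0 - A.card := by omega
      calc (j + 1) * ((B.card + (j + 1) - A.card) * (m - (j + 1)))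
          = (B.card + (j + 1) - A.card) * ((j + 1) * (m - (j + 1))) := by ring
        _ ≤ (B.card + j0 - A.card) * (j0 * (m - j0)) := Nat.mul_le_mul h3 h2
        _ = j0 * M := by rw [hM]; ring
  have h1' : ((cls H A B j).card : ℝ) * (P : ℝ) ≤
      ((cls H A B (j + 1)).card : ℝ) * ((j0 : ℝ) * (M : ℝ)) := by
    exact_mod_cast h1
  have hj0' : (0 : ℝ) < (j0 : ℝ) * (M : ℝ) := by
    have h4 : (0 : ℝ) < (j0 : ℝ) := by exact_mod_cast (by omega : 0 < j0)
    have h5 : 0 < M := by
      rw [hM]
      exact Nat.mul_pos (by omega) (by omega)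
    have h6 : (0 : ℝ) < (M : ℝ) := by exact_mod_cast h5
    positivity
  have hPpos : (0 : ℝ) < (P : ℝ) := by
    have h2 : 0 < x * (P : ℝ) := lt_of_lt_of_le hj0' hnum
    exact (mul_pos_iff_of_pos_left hx).1 h2
  have h3 : ((cls H A B j).card : ℝ) * (P : ℝ) ≤ (x * ((cls H A B (j + 1)).card : ℝ)) * (P : ℝ) := by
    calc ((cls H A B j).card : ℝ) * (P : ℝ) ≤
      ((cls H A B (j + 1)).card : ℝ) * ((j0 : ℝ) * (M : ℝ)) := h1'
      _ ≤ ((cls H A B (j + 1)).card : ℝ) * (x * (P : ℝ)) :=
        mul_le_mul_of_nonneg_left hnum (Nat.cast_nonneg _)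
      _ = (x * ((cls H A B (j + 1)).card : ℝ)) * (P : ℝ) := by ring
  exact le_of_mul_le_mul_right h3 hPpos

theorem decay_sum (N : ℕ → ℝ) (x C : ℝ) (hN : ∀ j, 0 ≤ N j) (hx : 0 < x)
    (hC : 0 ≤ C) (hxC : x * (C + 1) ≤ C) (j0 : ℕ) (h : ∀ j < j0, N j ≤ x * N (j + 1)) (t : ℕ)
    (ht : t ≤ j0) : ∑ j ∈ range t, N j ≤ C * x ^ (j0 - t) * N j0 := by
  have hgeo : ∀ d, d ≤ j0 → N (j0 - d) ≤ x ^ d * N j0 := by
    intro d
    induction d with
    | zero => intro _; simp
    | succ d ih =>
      intro hd
      have h1 := h (j0 - (d + 1)) (by omega)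
      have h2 : j0 - (d + 1) + 1 = j0 - d := by omega
      rw [h2] at h1
      have h3 := ih (by omega)
      calc N (j0 - (d + 1)) ≤ x * N (j0 - d) := h1
        _ ≤ x * (x ^ d * N j0) := mul_le_mul_of_nonneg_left h3 hx.le
        _ = x ^ (d + 1) * N j0 := by ring
  induction t with
  | zero =>
    simp only [range_zero, sum_empty]
    have := hN j0
    positivity
  | succ t ih =>
    rw [sum_range_succ]
    have h1 := ih (by omega)
    have h2 := hgeo (j0 - t) (by omega)
    have h3 : j0 - (j0 - t) = t := by omega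
    rw [h3] at h2
    have h4 : j0 - t = (j0 - (t + 1)) + 1 := by omega
    calc ∑ j ∈ range t, N j + N t ≤ C * x ^ (j0 - t) * N j0 + x ^ (j0 - t) * N j0 := add_le_add h1 h2
      _ = x ^ (j0 - (t + 1)) * N j0 * (x * (C + 1)) := by rw [h4]; ring
      _ ≤ x ^ (j0 - (t + 1)) * N j0 * C := by
        refine mul_le_mul_of_nonneg_left hxC ?_
        have := hN j0
        positivity
      _ = C * x ^ (j0 - (t + 1)) * N j0 := by ring

theorem bad_fraction (H : Fin m → Fin m → Prop) [∀ i b, Decidable (H i b)] (A B : Finset (Fin m))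
    (hAB : A.card ≤ B.card)
    (δ j0 t : ℕ) (x C : ℝ) (hm : 0 < m)
    (hrow : ∀ i, δ ≤ (univ.filter (fun b => H i b)).card)
    (hcol : ∀ b, δ ≤ (univ.filter (fun i => H i b)).card)
    (hnum : RowOK m δ A.card B.card j0 x) (hj0 : 2 * j0 ≤ m)
    (hx : 0 < x) (hC : 0 ≤ C) (hxC : x * (C + 1) ≤ C) (ht : t ≤ j0) :
    (((admS H).filter (fun π => miss A B π < t)).card : ℝ) ≤
      C * x ^ (j0 - t) * ((admS H).card : ℝ) := by
  have h1 : ((admS H).filter (fun π => miss A B π < t)).card =
      ∑ j ∈ range t, (cls H A B j).card := by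
    rw [card_eq_sum_card_fiberwise (f := fun π => miss A B π) (t := range t)]
    · refine sum_congr rfl (fun j hj => ?_)
      congr 1
      ext π
      rw [mem_range] at hj
      unfold cls admS
      simp only [mem_filter, mem_univ, true_and]
      constructor
      · rintro ⟨⟨h1, h2⟩, h3⟩
        exact ⟨h1, h3⟩
      · rintro ⟨h1, h2⟩
        exact ⟨⟨h1, by omega⟩, h2⟩
    · intro π hπ
      have hπ' : π ∈ (admS H).filter (fun π => miss A B π < t) := hπ
      rw [mem_filter] at hπ'
      simpa using hπ'.2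
  rw [h1]
  push_cast
  have h2 := decay_sum (fun j => ((cls H A B j).card : ℝ)) x C (fun j => Nat.cast_nonneg _) hx hC hxC
    j0 (fun j hj => decay_one H A B hAB δ j0 x hm hrow hcol hnum hj0 hx j hj) t ht
  refine h2.trans ?_
  refine mul_le_mul_of_nonneg_left ?_ (by positivity)
  have h3 : (cls H A B j0).card ≤ (admS H).card := by
    refine card_le_card ?_
    intro π hπ
    unfold cls at hπ
    unfold admS
    rw [mem_filter] at hπ ⊢
    exact ⟨hπ.1, hπ.2.1⟩
  exact_mod_cast h3

/-- hits of a rectangle by a permutation -/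
def hits (A B : Finset (Fin m)) (π : Equiv.Perm (Fin m)) : ℕ := (A.filter (fun a => π a ∈ B)).card

/-- The permutation is bad for the rectangle. -/
def Bad (t : ℕ) (A B : Finset (Fin m)) (π : Equiv.Perm (Fin m)) : Prop :=
  min A.card B.card < hits A B π + t

instance (t : ℕ) (A B : Finset (Fin m)) (π : Equiv.Perm (Fin m)) : Decidable (Bad t A B π) := by
  unfold Bad; infer_instance

theorem hits_add_miss (A B : Finset (Fin m)) (π : Equiv.Perm (Fin m)) :
    hits A B π + miss A B π = A.card := by
  unfold hits miss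
  exact card_filter_add_card_filter_not (s := A) (fun a => π a ∈ B)

theorem hits_symm (A B : Finset (Fin m)) (π : Equiv.Perm (Fin m)) :
    hits B A π.symm = hits A B π := by
  unfold hits
  refine card_bij (fun b _ => π.symm b) ?_ ?_ ?_
  · intro b hb
    rw [mem_filter] at hb ⊢
    exact ⟨hb.2, by simpa using hb.1⟩
  · intro a _ b _ h
    exact π.symm.injective h
  · intro a ha
    rw [mem_filter] at ha
    exact ⟨π a, by rw [mem_filter]; exact ⟨ha.2, by simpa using ha.1⟩, by simp⟩

theorem bad_fraction_both (H : Fin m → Fin m → Prop) [∀ i b, Decidable (H i b)]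
    (A B : Finset (Fin m))
    (δ j0 t : ℕ) (x C : ℝ) (hm : 0 < m)
    (hrow : ∀ i, δ ≤ (univ.filter (fun b => H i b)).card)
    (hcol : ∀ b, δ ≤ (univ.filter (fun i => H i b)).card)
    (hnum : RowOK m δ (min A.card B.card) (max A.card B.card) j0 x) (hj0 : 2 * j0 ≤ m)
    (hx : 0 < x) (hC : 0 ≤ C) (hxC : x * (C + 1) ≤ C) (ht : t ≤ j0) :
    (((admS H).filter (fun π => Bad t A B π)).card : ℝ) ≤
      C * x ^ (j0 - t) * ((admS H).card : ℝ) := by
  rcases le_or_gt A.card B.card with hle | hlt
  · have h1 : (admS H).filter (fun π => Bad t A B π) = (admS H).filter (fun π => miss A B π < t) := by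
      ext π
      rw [mem_filter, mem_filter]
      have := hits_add_miss A B π
      unfold Bad
      rw [min_eq_left hle]
      constructor
      · rintro ⟨h1, h2⟩
        exact ⟨h1, by omega⟩
      · rintro ⟨h1, h2⟩
        exact ⟨h1, by omega⟩
    rw [h1]
    rw [min_eq_left hle, max_eq_right hle] at hnum
    exact bad_fraction H A B hle δ j0 t x C hm hrow hcol hnum hj0 hx hC hxC ht
  · set H' : Fin m → Fin m → Prop := fun b i => H i b with hH'
    rw [min_eq_right hlt.le, max_eq_left hlt.le] at hnum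
    have hbf := bad_fraction H' B A hlt.le δ j0 t x C hm hcol hrow hnum hj0 hx hC hxC ht
    have e1 : ((admS H).filter (fun π => Bad t A B π)).card =
        ((admS H').filter (fun π => miss B A π < t)).card := by
      refine card_bij (fun π _ => π.symm) ?_ ?_ ?_
      · intro π hπ
        rw [mem_filter] at hπ ⊢
        obtain ⟨h1, h2⟩ := hπ
        refine ⟨?_, ?_⟩
        · unfold admS at h1 ⊢
          rw [mem_filter] at h1 ⊢
          refine ⟨mem_univ _, fun i => ?_⟩
          have := h1.2 (π.symm i)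
          rw [Equiv.apply_symm_apply] at this
          exact this
        · have h3 := hits_add_miss B A π.symm
          rw [hits_symm] at h3
          unfold Bad at h2
          rw [min_eq_right hlt.le] at h2
          omega
      · intro a _ b _ h
        exact Equiv.symm_bijective.injective h
      · intro ρ hρ
        rw [mem_filter] at hρ
        obtain ⟨h1, h2⟩ := hρ
        refine ⟨ρ.symm, ?_, by simp⟩
        rw [mem_filter]
        refine ⟨?_, ?_⟩
        · unfold admS at h1 ⊢
          rw [mem_filter] at h1 ⊢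
          refine ⟨mem_univ _, fun i => ?_⟩
          have := h1.2 (ρ.symm i)
          rw [Equiv.apply_symm_apply] at this
          exact this
        · have h3 := hits_add_miss B A ρ
          unfold Bad
          rw [min_eq_right hlt.le]
          have h4 := hits_symm A B ρ.symm
          rw [Equiv.symm_symm] at h4
          omega
    have e2 : (admS H).card = (admS H').card := by
      refine card_bij (fun π _ => π.symm) ?_ ?_ ?_
      · intro π h1
        unfold admS at h1 ⊢
        rw [mem_filter] at h1 ⊢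
        refine ⟨mem_univ _, fun i => ?_⟩
        have := h1.2 (π.symm i)
        rw [Equiv.apply_symm_apply] at this
        exact this
      · intro a _ b _ h
        exact Equiv.symm_bijective.injective h
      · intro ρ h1
        refine ⟨ρ.symm, ?_, by simp⟩
        unfold admS at h1 ⊢
        rw [mem_filter] at h1 ⊢
        refine ⟨mem_univ _, fun i => ?_⟩
        have := h1.2 (ρ.symm i)
        rw [Equiv.apply_symm_apply] at this
        exact this
    rw [e1, e2]
    exact hbf

end Pool.Agent.Helper34.CP
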