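import Pool.Agent.Helper34.CP.Inst
import Pool.Agent.Helper34.CP.Data

set_option autoImplicit false

namespace Pool.Agent.Helper34.CP

open Finset

theorem four_sq_lt (n : ℕ) (hn : 32 ≤ n) : 4 * n ^ 2 < 2 ^ n := by
  set f := n / 4 with hf
  have h1 : n < 4 * (f + 1) := by omega
  have h2 : f + 1 ≤ 2 ^ f := Nat.lt_two_pow_self
  have h3 : n ^ 4 < (4 * (f + 1)) ^ 4 := Nat.pow_lt_pow_left h1 (by norm_num)
  have h4 : (4 * (f + 1)) ^ 4 ≤ (4 * 2 ^ f) ^ 4 := Nat.pow_le_pow_left (Nat.mul_le_mul_left _ h2) _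
  have h5 : (4 * 2 ^ f) ^ 4 = 256 * 2 ^ (4 * f) := by
    rw [mul_pow, ← pow_mul, Nat.mul_comm f 4]; norm_num
  have h6 : 2 ^ (4 * f) ≤ 2 ^ n := Nat.pow_le_pow_right (by norm_num) (by omega)
  have h7 : 1024 * n ^ 2 ≤ n ^ 4 := by
    have : 1024 ≤ n ^ 2 := by nlinarith
    calc 1024 * n ^ 2 ≤ n ^ 2 * n ^ 2 := Nat.mul_le_mul_right _ this
      _ = n ^ 4 := by ring
  have h8 : 256 * (4 * n ^ 2) < 256 * 2 ^ n := by
    calc 256 * (4 * n ^ 2) = 1024 * n ^ 2 := by ring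
      _ ≤ n ^ 4 := h7
      _ < (4 * (f + 1)) ^ 4 := h3
      _ ≤ 256 * 2 ^ (4 * f) := by rw [← h5]; exact h4
      _ ≤ 256 * 2 ^ n := Nat.mul_le_mul_left _ h6
  exact lt_of_mul_lt_mul_left h8 (by norm_num)

theorem pow_big (y : ℕ) (hy : 10 ^ 6 ≤ y) :
    19 * (10001 * y) ^ 2 * 4 ^ 10001 * 19 ^ y ≤ 20 ^ y := by
  set z := y / 14 with hz
  set s := y % 14 with hs
  have hys : y = 14 * z + s := by omega
  have hz1 : 71428 ≤ z := by omega
  obtain ⟨n, hn⟩ := Nat.exists_eq_add_of_le (show 20043 ≤ z by omega)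
  have hn1 : 51385 ≤ n := by omega
  have h1 : 2 ^ z * 19 ^ y ≤ 20 ^ y := by
    calc 2 ^ z * 19 ^ y = (2 * 19 ^ 14) ^ z * 19 ^ s := by
          rw [mul_pow, ← pow_mul, mul_assoc, ← pow_add]
          congr 2
      _ ≤ (20 ^ 14) ^ z * 20 ^ s := by
          refine Nat.mul_le_mul (Nat.pow_le_pow_left (by norm_num) _)
            (Nat.pow_le_pow_left (by norm_num) _)
      _ = 20 ^ y := by rw [← pow_mul, ← pow_add, ← hys]
  have h2 : 19 * (10001 * y) ^ 2 * 4 ^ 10001 ≤ 2 ^ z := by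
    have h3 : 10001 * y ≤ 2 ^ 18 * z := by
      have : y < 14 * (z + 1) := by omega
      omega
    have h4 : 4 * n ^ 2 ≤ 2 ^ n := (four_sq_lt n (by omega)).le
    have h5 : z ≤ 2 * n := by omega
    have h6 : z ^ 2 ≤ 2 ^ n := by
      calc z ^ 2 ≤ (2 * n) ^ 2 := Nat.pow_le_pow_left h5 _
        _ = 4 * n ^ 2 := by ring
        _ ≤ 2 ^ n := h4
    have h7 : (4 : ℕ) ^ 10001 = 2 ^ 20002 := by
      rw [show (4 : ℕ) = 2 ^ 2 by norm_num, ← pow_mul]
    rw [h7]
    calc 19 * (10001 * y) ^ 2 * 2 ^ 20002 ≤ 2 ^ 5 * (2 ^ 18 * z) ^ 2 * 2 ^ 20002 := by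
          refine Nat.mul_le_mul_right _ (Nat.mul_le_mul (by norm_num) (Nat.pow_le_pow_left h3 _))
      _ = 2 ^ 20043 * z ^ 2 := by
          rw [mul_pow, ← pow_mul]
          have : (2 : ℕ) ^ 20043 = 2 ^ 5 * 2 ^ (18 * 2) * 2 ^ 20002 := by
            rw [← pow_add, ← pow_add]
          rw [this]
          generalize (2 : ℕ) ^ 20002 = W
          ring
      _ ≤ 2 ^ 20043 * 2 ^ n := Nat.mul_le_mul_left _ h6
      _ = 2 ^ z := by rw [← pow_add, ← hn]
  calc 19 * (10001 * y) ^ 2 * 4 ^ 10001 * 19 ^ y ≤ 2 ^ z * 19 ^ y := Nat.mul_le_mul_right _ h2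
    _ ≤ 20 ^ y := h1

theorem num_inst {ls : List ℕ} {cs : List Cell} {P0 pl Dh y m D : ℕ}
    (hd : Dat 10000 19 20 ls cs P0 pl Dh y m D) (hy : 10 ^ 6 ≤ y) :
    Num m D ls.length (LamF y ls) (wF y cs) y y (((19 : ℕ) : ℝ) / ((20 : ℕ) : ℝ)) 19
      (4 ^ 10001) (1 / (m : ℝ)) := by
  obtain ⟨h1, h2⟩ := dat_num hd
  have hmlo := hd.hmlo
  have hmhi := hd.hmhi
  have hNy := hd.hNy
  have hm0 : 0 < m := by omega
  have hm0' : (0 : ℝ) < m := by exact_mod_cast hm0
  have hDm : D ≤ m := by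
    have h3 := hd.hD
    have h4 := hd.hpl
    have h5 : Dh * y ≤ 10000 * y := Nat.mul_le_mul_right _ (by omega)
    omega
  have hm1 : m ≤ 10001 * y := by omega
  refine ⟨hm0, h1, h2, by norm_num, by norm_num, by norm_num, by norm_num, ?_, by positivity,
    ?_, ?_⟩
  · exact one_le_pow₀ (by norm_num)
  · -- potential step
    rw [le_div_iff₀ hm0']
    have h3 := pow_big y hy
    have h4 : ((19 * (10001 * y) ^ 2 * 4 ^ 10001 * 19 ^ y : ℕ) : ℝ) ≤ ((20 ^ y : ℕ) : ℝ) := by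
      exact_mod_cast h3
    push_cast at h4
    have h5 : (0 : ℝ) < 20 ^ y := by positivity
    have hD' : (D : ℝ) ≤ 10001 * y := by exact_mod_cast hDm.trans hm1
    have hm' : (m : ℝ) ≤ 10001 * y := by exact_mod_cast hm1
    have hD0 : (0 : ℝ) ≤ D := Nat.cast_nonneg _
    have h6 : (D : ℝ) * m ≤ (10001 * y) ^ 2 := by
      rw [sq]; exact mul_le_mul hD' hm' hm0'.le (by positivity)
    push_cast
    rw [div_pow]
    have h7 : (D : ℝ) * ((4 ^ 10001 - 1) * (19 * (19 ^ y / 20 ^ y))) * m =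
        ((D : ℝ) * m * (19 * (4 ^ 10001 - 1) * 19 ^ y)) / 20 ^ y := by
      ring
    rw [h7, div_le_one h5]
    refine le_trans ?_ h4
    have h8 : (0 : ℝ) ≤ 19 ^ y := by positivity
    have h9 : (1 : ℝ) ≤ 4 ^ 10001 := one_le_pow₀ (by norm_num)
    generalize (4 : ℝ) ^ 10001 = W at h9
    calc (D : ℝ) * m * (19 * (W - 1) * 19 ^ y) ≤ (10001 * y) ^ 2 * (19 * (W - 1) * 19 ^ y) := by
          refine mul_le_mul_of_nonneg_right h6 ?_
          have : 0 ≤ W - 1 := by linarith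
          positivity
      _ ≤ (10001 * y) ^ 2 * (19 * W * 19 ^ y) := by
          refine mul_le_mul_of_nonneg_left ?_ (by positivity)
          refine mul_le_mul_of_nonneg_right ?_ h8
          linarith
      _ = 19 * (10001 * y) ^ 2 * W * 19 ^ y := by ring
  · -- final count
    have h3 : (1 + 1 / (m : ℝ)) ^ D < 4 := by
      calc (1 + 1 / (m : ℝ)) ^ D ≤ (1 + 1 / (m : ℝ)) ^ m :=
            pow_le_pow_right₀ (by
              have : 0 < 1 / (m : ℝ) := by positivity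
              linarith) hDm
        _ ≤ (Real.exp (1 / (m : ℝ))) ^ m := by
            refine pow_le_pow_left₀ (by positivity) ?_ _
            have := Real.add_one_le_exp (1 / (m : ℝ))
            linarith
        _ = Real.exp 1 := by
            rw [← Real.exp_nat_mul]
            congr 1
            field_simp
        _ < 4 := by
            have := Real.exp_one_lt_d9
            linarith
    have h4 : (4 : ℝ) ^ m * (1 + 1 / (m : ℝ)) ^ D < 4 ^ m * 4 := by
      refine mul_lt_mul_of_pos_left h3 (by positivity)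
    refine h4.trans_le ?_
    rw [← pow_succ, ← pow_mul]
    refine pow_le_pow_right₀ (by norm_num) ?_
    omega

set_option maxRecDepth 100000 in
theorem chkD : (chainOK 5001 3749 csD && (csD.all (cellChk 10000 19 20 lsT) &&
    (lsT.all (fun l => decide (2 * l ≤ 10000)) &&
    csD.all (fun c => decide ((6251 + 1 + c.1) * c.1 ≤ 10000 * c.1 + lsum c.2.2 lsT 0))))) = true := by
  decide +kernel

set_option maxRecDepth 100000 in
theorem chkM : (chainOK 5001 4078 csM && (csM.all (cellChk 10000 19 20 lsT) &&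
    (lsT.all (fun l => decide (2 * l ≤ 10000)) &&
    csM.all (fun c => (List.range 74).all (fun i =>
      decide (((8 + 1) * 5264 + 8) * c.1 + 8 * c.1 * c.1 ≤
        2 * (50 * i) * c.1 + 8 * 10000 * c.1 + 8 * lsum c.2.2 lsT (50 * i + 50))))))) = true := by
  decide +kernel

end Pool.Agent.Helper34.CP
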