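import Pool.Agent.Helper34.CP.Table

set_option autoImplicit false

namespace Pool.Agent.Helper34.CP

open Finset

/-- layer bounds -/
def LamF (y : ℕ) (ls : List ℕ) (i : ℕ) : ℕ := ls.getD i 0 * y

/-- layer weights -/
def wF (y : ℕ) (cs : List Cell) (i q : ℕ) : ℕ :=
  ((look y q cs).getD i 0 - (look y q cs).getD (i + 1) 0) * y

theorem anti_getD (ts : List ℕ) (h : monoOK ts = true) {i j : ℕ} (hij : i ≤ j) :
    ts.getD j 0 ≤ ts.getD i 0 := by
  induction j, hij using Nat.le_induction with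
  | base => exact le_rfl
  | succ j _ ih => exact (mono_spec ts h j).trans ih

theorem tt_wF (y q r i : ℕ) (cs : List Cell) (h : monoOK (look y q cs) = true) (hir : i ≤ r) :
    tt r (wF y cs) i q = ((look y q cs).getD i 0 - (look y q cs).getD r 0) * y := by
  unfold tt wF
  induction r, hir using Nat.le_induction with
  | base => simp
  | succ r hr ih =>
    rw [sum_Ico_succ_top hr, ih, ← Nat.add_mul]
    congr 1
    have h1 := anti_getD _ h hr
    have h2 := mono_spec _ h r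
    omega

/-- checks for one cell -/
def cellChk (N xn xd : ℕ) (ls : List ℕ) (c : Cell) : Bool :=
  decide (c.2.2.length = ls.length) && (monoOK c.2.2 && (rowsChk N xn xd c.2.1 c.2.2 ls &&
    (decide (2 * c.2.1 ≤ N + 2) && decide (c.1 ≤ N))))

theorem cellChk_spec (N xn xd : ℕ) (ls : List ℕ) (c : Cell) (h : cellChk N xn xd ls c = true) :
    c.2.2.length = ls.length ∧ monoOK c.2.2 = true ∧ rowsChk N xn xd c.2.1 c.2.2 ls = true ∧
      2 * c.2.1 ≤ N + 2 ∧ c.1 ≤ N := by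
  unfold cellChk at h
  simp only [Bool.and_eq_true, decide_eq_true_eq] at h
  exact ⟨h.1, h.2.1, h.2.2.1, h.2.2.2.1, h.2.2.2.2⟩

theorem getD_len (ts : List ℕ) (r : ℕ) (h : ts.length = r) : ts.getD r 0 = 0 := by
  subst h
  simp

/-- common data -/
structure Dat (N xn xd : ℕ) (ls : List ℕ) (cs : List Cell) (P0 pl Dh y m D : ℕ) : Prop where
  hmlo : N * y ≤ m
  hmhi : m < N * y + N
  hNy : N ≤ y
  hy2 : 2 ≤ y
  hD : D ≤ Dh * y
  hxd : 0 < xd
  hch : chainOK P0 pl cs = true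
  hcs : 0 < cs.length
  hall : cs.all (cellChk N xn xd ls) = true
  hP0 : N + 1 ≤ 2 * P0
  hpl : pl + Dh ≤ N
  hls : ls.all (fun l => decide (2 * l ≤ N)) = true

theorem dat_cell {N xn xd : ℕ} {ls : List ℕ} {cs : List Cell} {P0 pl Dh y m D : ℕ}
    (hd : Dat N xn xd ls cs P0 pl Dh y m D) (q Q : ℕ) (hqQ : q + Q = m + 1) (hle : q ≤ Q)
    (hQD : Q ≤ D) :
    ∃ c ∈ cs, c.2.1 * y ≤ q ∧ q ≤ c.1 * y ∧ look y q cs = c.2.2 ∧ cellChk N xn xd ls c = true := by
  have h1 : q ≤ P0 * y := by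
    have h2 : 2 * q ≤ m + 1 := by omega
    have h3 := hd.hmhi
    have h4 := hd.hNy
    have h5 : (N + 1) * y ≤ 2 * P0 * y := Nat.mul_le_mul_right _ hd.hP0
    have e1 : (N + 1) * y = N * y + y := by ring
    have e2 : 2 * P0 * y = 2 * (P0 * y) := by ring
    omega
  have h2 : pl * y ≤ q := by
    have h3 := hd.hmlo
    have h4 := hd.hD
    have h5 : (pl + Dh) * y ≤ N * y := Nat.mul_le_mul_right _ hd.hpl
    rw [Nat.add_mul] at h5
    omega
  obtain ⟨c, hc, h3, h4, h5⟩ := look_spec y pl cs P0 hd.hch q (Or.inr ⟨h1, hd.hcs⟩) h2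
  refine ⟨c, hc, h3, h4, h5, ?_⟩
  have := hd.hall
  rw [List.all_eq_true] at this
  exact this c hc

theorem dat_num {N xn xd : ℕ} {ls : List ℕ} {cs : List Cell} {P0 pl Dh y m D : ℕ}
    (hd : Dat N xn xd ls cs P0 pl Dh y m D) :
    (∀ i < ls.length, 2 * LamF y ls i ≤ m) ∧
    (∀ i < ls.length, ∀ q Q, q + Q = m + 1 → q ≤ Q → Q ≤ D →
      tt ls.length (wF y cs) i q = 0 ∨
      ∃ j0, tt ls.length (wF y cs) i q + y ≤ j0 ∧ 2 * j0 ≤ m ∧
        RowOK m (m - LamF y ls i) q Q j0 ((xn : ℝ) / xd)) := by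
  constructor
  · intro i hi
    have h1 := hd.hls
    rw [List.all_eq_true] at h1
    have h2 : ls.getD i 0 ∈ ls := by
      rw [List.getD_eq_getElem _ _ hi]
      exact List.getElem_mem hi
    have h3 := h1 _ h2
    rw [decide_eq_true_eq] at h3
    unfold LamF
    have h4 : 2 * ls.getD i 0 * y ≤ N * y := Nat.mul_le_mul_right _ h3
    have e : 2 * ls.getD i 0 * y = 2 * (ls.getD i 0 * y) := by ring
    have := hd.hmlo
    omega
  · intro i hi q Q hqQ hle hQD
    obtain ⟨c, hc, h1, h2, h3, h4⟩ := dat_cell hd q Q hqQ hle hQD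
    obtain ⟨hlen, hmono, hrows, h2p, _⟩ := cellChk_spec _ _ _ _ _ h4
    rw [tt_wF y q ls.length i cs (by rw [h3]; exact hmono) hi.le, h3, getD_len _ _ hlen,
      Nat.sub_zero]
    have hr := rowsChk_spec N xn xd c.2.1 ls c.2.2 hlen hrows i hi
    unfold rowChk at hr
    simp only [Bool.or_eq_true, Bool.and_eq_true, decide_eq_true_eq] at hr
    rcases hr with h0 | ⟨ht, hchk⟩
    · left; rw [h0, Nat.zero_mul]
    · right
      refine ⟨(c.2.2.getD i 0 + 1) * y, by rw [Nat.add_mul, Nat.one_mul], ?_, ?_⟩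
      · have h5 : 2 * (c.2.2.getD i 0 + 1) * y ≤ N * y := Nat.mul_le_mul_right _ ht
        have e : 2 * (c.2.2.getD i 0 + 1) * y = 2 * ((c.2.2.getD i 0 + 1) * y) := by ring
        have := hd.hmlo
        omega
      · have hmr : m = N * y + (m - N * y) := by have := hd.hmlo; omega
        exact row_scaled N xn xd y m (m - N * y) c.2.1 (ls.getD i 0) (c.2.2.getD i 0) q Q hmr
          (by have := hd.hmhi; have := hd.hmlo; omega) hd.hNy hd.hy2 hqQ h1 hd.hxd (by omega)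
          (by omega) hchk

/-- the weighted sum in terms of the table -/
theorem sum_table (y q : ℕ) (ls : List ℕ) (cs : List Cell) (ts : List ℕ) (hts : look y q cs = ts)
    (hlen : ts.length = ls.length) (X x : ℕ) (hx : x ≤ X * y) :
    y ^ 2 * lsum ts ls X ≤ ∑ i ∈ range ls.length, wF y cs i q * (LamF y ls i - x) := by
  rw [← lsum_spec ls ts X hlen, mul_sum]
  refine sum_le_sum (fun i _ => ?_)
  unfold wF LamF
  rw [hts]
  have h1 : (ls.getD i 0 - X) * y ≤ ls.getD i 0 * y - x := by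
    rw [Nat.sub_mul]; omega
  calc y ^ 2 * ((ts.getD i 0 - ts.getD (i + 1) 0) * (ls.getD i 0 - X))
      = (ts.getD i 0 - ts.getD (i + 1) 0) * y * ((ls.getD i 0 - X) * y) := by ring
    _ ≤ _ := Nat.mul_le_mul_left _ h1

theorem vok_deg {N xn xd : ℕ} {ls : List ℕ} {cs : List Cell} {P0 pl Dh y m D : ℕ}
    (hd : Dat N xn xd ls cs P0 pl Dh y m D)
    (hchk : cs.all (fun c => decide ((Dh + 1 + c.1) * c.1 ≤ N * c.1 + lsum c.2.2 ls 0)) = true)
    (d : ℕ) (hdD : d ≤ D) : VOK m D ls.length (LamF y ls) (wF y cs) y d 0 := by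
  intro q Q hqQ hle hQD
  obtain ⟨c, hc, h1, h2, h3, h4⟩ := dat_cell hd q Q hqQ hle hQD
  obtain ⟨hlen, hmono, hrows, h2p, hPN⟩ := cellChk_spec _ _ _ _ _ h4
  rw [List.all_eq_true] at hchk
  have hc1 := hchk c hc
  rw [decide_eq_true_eq] at hc1
  have hs := sum_table y q ls cs c.2.2 h3 hlen 0 0 (Nat.zero_le _)
  have hq0 : 0 < q := by
    have := hd.hmlo
    have h5 := hd.hD
    have h6 : (pl + Dh) * y ≤ N * y := Nat.mul_le_mul_right _ hd.hpl
    rw [Nat.add_mul] at h6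
    have h7 : 0 ≤ pl * y := Nat.zero_le _
    omega
  have hd2 : d ≤ Dh * y := hdD.trans hd.hD
  have hml := hd.hmlo
  refine lt_of_lt_of_le ?_ (Nat.add_le_add_left hs _)
  generalize lsum c.2.2 ls 0 = S0 at hc1
  generalize c.1 = P at hc1 h2 hPN
  have hy0 : 0 < y := by have := hd.hy2; omega
  zify at *
  have hQ : (Q : ℤ) = m + 1 - q := by linarith
  have hQ2 : (N : ℤ) * y + 1 - P * y ≤ Q := by nlinarith
  -- d q + y q < q Q + y^2 S
  have h8 : (q : ℤ) * ((N : ℤ) * y + 1 - P * y) ≤ q * Q := mul_le_mul_of_nonneg_left hQ2 hq0.le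
  have h9 : (d : ℤ) * q ≤ (Dh * y) * q := mul_le_mul_of_nonneg_right hd2 hq0.le
  have h10 : ((Dh : ℤ) + 1 + P - N) * y * q ≤ y ^ 2 * S0 := by
    rcases le_or_gt ((Dh : ℤ) + 1 + P - N) 0 with hneg | hpos
    · have hS0 : (0 : ℤ) ≤ S0 := Int.natCast_nonneg _
      have : ((Dh : ℤ) + 1 + P - N) * (y * q) ≤ 0 :=
        mul_nonpos_of_nonpos_of_nonneg hneg (by positivity)
      have h11 : (0 : ℤ) ≤ (y : ℤ) ^ 2 * S0 := by positivity
      linarith
    · have h11 : ((Dh : ℤ) + 1 + P - N) * y * q ≤ ((Dh : ℤ) + 1 + P - N) * y * (P * y) :=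
        mul_le_mul_of_nonneg_left h2 (by positivity)
      have h12 : ((Dh : ℤ) + 1 + P - N) * P ≤ S0 := by linarith
      have h13 : (y : ℤ) ^ 2 * (((Dh : ℤ) + 1 + P - N) * P) ≤ y ^ 2 * S0 :=
        mul_le_mul_of_nonneg_left h12 (by positivity)
      linarith
  nlinarith

theorem vok_mad {N xn xd : ℕ} {ls : List ℕ} {cs : List Cell} {P0 pl Dh y m D : ℕ}
    (hd : Dat N xn xd ls cs P0 pl Dh y m D) (L Kh h Gr k : ℕ) (hL : 0 < L) (hh : 0 < h)
    (hk : k ≤ Kh * y) (hgr : 2 * (L + 1) * Kh ≤ L * N + 4 * Gr * h)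
    (hchk : cs.all (fun c => (List.range Gr).all (fun i =>
      decide (((L + 1) * Kh + L) * c.1 + L * c.1 * c.1 ≤
        2 * (h * i) * c.1 + L * N * c.1 + L * lsum c.2.2 ls (h * i + h)))) = true)
    (d x : ℕ) (hd1 : m + 1 ≤ 2 * d) (hdx : 2 * x + L * d ≤ (L + 1) * k) :
    VOK m D ls.length (LamF y ls) (wF y cs) y d x := by
  intro q Q hqQ hle hQD
  obtain ⟨c, hc, h1, h2, h3, h4⟩ := dat_cell hd q Q hqQ hle hQD
  obtain ⟨hlen, hmono, hrows, h2p, hPN⟩ := cellChk_spec _ _ _ _ _ h4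
  have hy0 : 0 < y := by have := hd.hy2; omega
  have hml := hd.hmlo
  -- grid index
  set i := x / (h * y) with hi
  have hhy : 0 < h * y := Nat.mul_pos hh hy0
  have hi1 : h * i * y ≤ x := by
    have := Nat.div_mul_le_self x (h * y)
    calc h * i * y = x / (h * y) * (h * y) := by rw [hi]; ring
      _ ≤ x := this
  have hi2 : x ≤ (h * i + h) * y := by
    have := Nat.lt_div_mul_add hhy (a := x)
    have e : (h * i + h) * y = x / (h * y) * (h * y) + h * y := by rw [hi]; ring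
    omega
  have hxG : x < Gr * (h * y) := by
    have h5 : 4 * x + L * (m + 1) ≤ 2 * ((L + 1) * k) := by
      have : L * (m + 1) ≤ L * (2 * d) := Nat.mul_le_mul_left _ hd1
      have e : L * (2 * d) = 2 * (L * d) := by ring
      omega
    have h6 : 2 * ((L + 1) * k) ≤ (2 * (L + 1) * Kh) * y := by
      calc 2 * ((L + 1) * k) ≤ 2 * ((L + 1) * (Kh * y)) :=
            Nat.mul_le_mul_left _ (Nat.mul_le_mul_left _ hk)
        _ = (2 * (L + 1) * Kh) * y := by ring
    have h7 : (2 * (L + 1) * Kh) * y ≤ (L * N + 4 * Gr * h) * y := Nat.mul_le_mul_right _ hgr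
    have h8 : L * (N * y) ≤ L * m := Nat.mul_le_mul_left _ hml
    have e1 : (L * N + 4 * Gr * h) * y = L * (N * y) + 4 * (Gr * (h * y)) := by ring
    have e2 : L * (m + 1) = L * m + L := by ring
    omega
  have hiG : i < Gr := by
    rw [hi]
    exact Nat.div_lt_of_lt_mul (by rw [Nat.mul_comm]; exact hxG)
  rw [List.all_eq_true] at hchk
  have hc1 := hchk c hc
  rw [List.all_eq_true] at hc1
  have hc2 := hc1 i (List.mem_range.2 hiG)
  rw [decide_eq_true_eq] at hc2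
  have hs := sum_table y q ls cs c.2.2 h3 hlen (h * i + h) x hi2
  have hq0 : 0 < q := by
    have h5 := hd.hD
    have h6 : (pl + Dh) * y ≤ N * y := Nat.mul_le_mul_right _ hd.hpl
    rw [Nat.add_mul] at h6
    have h7 : 0 ≤ pl * y := Nat.zero_le _
    omega
  refine lt_of_lt_of_le ?_ (Nat.add_le_add_left hs _)
  generalize lsum c.2.2 ls (h * i + h) = S0 at hc2
  generalize c.1 = P at hc2 h2 hPN
  generalize h * i = X at hc2 hi1 hi2
  clear hi hchk hc1 hs h3 hlen hmono hrows h4 h1 hc hgr hxG hiG hhy h2p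
  zify at *
  have hQ : (Q : ℤ) = m + 1 - q := by linarith
  have hQ2 : (N : ℤ) * y + 1 - P * y ≤ Q := by nlinarith
  have h8 : (q : ℤ) * ((N : ℤ) * y + 1 - P * y) ≤ q * Q := mul_le_mul_of_nonneg_left hQ2 hq0.le
  have h9 : (L : ℤ) * d ≤ (L + 1) * (Kh * y) - 2 * (X * y) := by nlinarith
  have h10 : (((L : ℤ) + 1) * Kh + L - 2 * X - L * (N - P)) * y * q ≤ L * (y ^ 2 * S0) := by
    rcases le_or_gt (((L : ℤ) + 1) * Kh + L - 2 * X - L * (N - P)) 0 with hneg | hpos
    · have : (((L : ℤ) + 1) * Kh + L - 2 * X - L * (N - P)) * (y * q) ≤ 0 :=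
        mul_nonpos_of_nonpos_of_nonneg hneg (by positivity)
      have h11 : (0 : ℤ) ≤ (L : ℤ) * ((y : ℤ) ^ 2 * S0) := by positivity
      linarith
    · have h11 : (((L : ℤ) + 1) * Kh + L - 2 * X - L * (N - P)) * y * q ≤
          (((L : ℤ) + 1) * Kh + L - 2 * X - L * (N - P)) * y * (P * y) :=
        mul_le_mul_of_nonneg_left h2 (by positivity)
      have h12 : (((L : ℤ) + 1) * Kh + L - 2 * X - L * (N - P)) * P ≤ L * S0 := by linarith
      have h13 : (y : ℤ) ^ 2 * ((((L : ℤ) + 1) * Kh + L - 2 * X - L * (N - P)) * P) ≤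
          y ^ 2 * (L * S0) := mul_le_mul_of_nonneg_left h12 (by positivity)
      linarith
  have h14 : (L : ℤ) * (d * q + y * q) < L * (q * Q + y ^ 2 * S0) := by
    have h15 : (L : ℤ) * d * q ≤ ((L + 1) * (Kh * y) - 2 * (X * y)) * q :=
      mul_le_mul_of_nonneg_right h9 hq0.le
    have h16 : (L : ℤ) * (q * ((N : ℤ) * y + 1 - P * y)) ≤ L * (q * Q) :=
      mul_le_mul_of_nonneg_left h8 hL.le
    have h17 : (0 : ℤ) < L * q := by positivity
    nlinarith
  exact lt_of_mul_lt_mul_left h14 hL.le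

end Pool.Agent.Helper34.CP
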