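import Pool.Agent.Helper34.CP.ColorF

set_option autoImplicit false

namespace Pool.Agent.Helper34.CP

open Finset

variable {V : Type} [Fintype V] [DecidableEq V] {m : ℕ}

/-- vertex condition: a vertex with `d` coloured neighbours, `x` of them uncontrolled -/
def VOK (m D r : ℕ) (Lam : ℕ → ℕ) (w : ℕ → ℕ → ℕ) (c0 d x : ℕ) : Prop :=
  ∀ q Q, q + Q = m + 1 → q ≤ Q → Q ≤ D →
    d * q + c0 * q < q * Q + ∑ i ∈ range r, w i q * (Lam i - x)

/-- a vertex with many randomly coloured neighbours is never blocked -/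
theorem not_blocked (G : SimpleGraph V) [DecidableRel G.Adj] (σ : V → V → Equiv.Perm (Fin m))
    (U P : Finset V) (hPU : P ⊆ U) (π : V → Equiv.Perm (Fin m)) (v : V)
    (D r c0 d x : ℕ) (Lam : ℕ → ℕ) (w : ℕ → ℕ → ℕ) (τ : V → ℕ → ℕ)
    (hd : dg G U v ≤ d) (hdD : d ≤ D)
    (hbc : ∀ r ∈ rects m D, bc G σ τ P π v r ≤ c0)
    (hτq : ∀ u ∈ P, ∀ q Q, q + Q = m + 1 → q ≤ Q → Q ≤ D → τ u q ≤ q)
    (hτs : ∀ q Q, q + Q = m + 1 → q ≤ Q → Q ≤ D → ∑ i ∈ range r, w i q * (Lam i - x) ≤
      ∑ u ∈ P.filter (fun u => G.Adj u v), τ u q)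
    (hV : VOK m D r Lam w c0 d x)
    (A B : Finset (Fin m)) (hAB : A.card + B.card = m + 1)
    (hbl : ∀ a ∈ A, ∀ b ∈ B, ¬ Adm G σ U π v a b) : False := by
  have hcount := blocked_count G σ U π v A B hbl
  have hcount' : A.card * B.card ≤ ∑ u ∈ U.filter (fun u => G.Adj u v), hits A B (σ u v * π u) :=
    hcount
  set q := min A.card B.card with hq
  set Q := max A.card B.card with hQ
  have hqQ : q * Q = A.card * B.card := min_mul_max _ _
  have hqaQ : q + Q = m + 1 := by rw [hq, hQ, min_add_max, hAB]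
  have hqleQ : q ≤ Q := min_le_max
  have hAm : A.card ≤ m := by simpa using card_le_univ A
  have hBm : B.card ≤ m := by simpa using card_le_univ B
  have hq0 : 0 < q := by
    rw [hq]; exact lt_min (by omega) (by omega)
  have hub : ∑ u ∈ U.filter (fun u => G.Adj u v), hits A B (σ u v * π u) ≤ d * q := by
    calc ∑ u ∈ U.filter (fun u => G.Adj u v), hits A B (σ u v * π u)
        ≤ ∑ u ∈ U.filter (fun u => G.Adj u v), q := sum_le_sum (fun u _ => hits_le_min A B _)
      _ = dg G U v * q := by rw [sum_const, smul_eq_mul]; rfl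
      _ ≤ d * q := Nat.mul_le_mul_right _ hd
  have hQD : Q ≤ D := by
    have : Q * q ≤ d * q := by
      calc Q * q = q * Q := Nat.mul_comm _ _
        _ = A.card * B.card := hqQ
        _ ≤ _ := hcount'.trans hub
    exact (Nat.le_of_mul_le_mul_right this hq0).trans hdD
  have hr : (A, B) ∈ rects m D := by
    unfold rects
    rw [mem_filter]
    exact ⟨mem_univ _, hAB, hQD⟩
  have hb := hbc (A, B) hr
  set X := U.filter (fun u => G.Adj u v) with hX
  set Y := P.filter (fun u => G.Adj u v) with hY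
  set Bd := P.filter (fun u => G.Adj u v ∧ Bad (τ u q) A B (σ u v * π u)) with hBd
  have hbcard : Bd.card ≤ c0 := hb
  have hYX : Y ⊆ X := filter_subset_filter _ hPU
  have hBY : Bd ⊆ Y := by
    intro u hu
    rw [hBd, mem_filter] at hu
    rw [hY, mem_filter]
    exact ⟨hu.1, hu.2.1⟩
  -- pointwise bound on Y
  have h1 : ∑ u ∈ Y, (hits A B (σ u v * π u) + τ u q) ≤ Y.card * q + c0 * q := by
    have h2 : ∀ u ∈ Y, hits A B (σ u v * π u) + τ u q ≤ q + if u ∈ Bd then q else 0 := by
      intro u hu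
      rw [hY, mem_filter] at hu
      by_cases hub : Bad (τ u q) A B (σ u v * π u)
      · have : u ∈ Bd := by rw [hBd, mem_filter]; exact ⟨hu.1, hu.2, hub⟩
        rw [if_pos this]
        exact Nat.add_le_add (hits_le_min A B _) (hτq u hu.1 q Q hqaQ hqleQ hQD)
      · have : hits A B (σ u v * π u) + τ u q ≤ q := by
          unfold Bad at hub
          push Not at hub
          exact hub
        exact this.trans (Nat.le_add_right _ _)
    calc ∑ u ∈ Y, (hits A B (σ u v * π u) + τ u q)
        ≤ ∑ u ∈ Y, (q + if u ∈ Bd then q else 0) := sum_le_sum h2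
      _ = Y.card * q + Bd.card * q := by
          rw [sum_add_distrib, sum_const, smul_eq_mul, ← sum_filter, sum_const, smul_eq_mul]
          congr 3
          rw [filter_mem_eq_inter, inter_eq_right]
          exact hBY
      _ ≤ Y.card * q + c0 * q := Nat.add_le_add_left (Nat.mul_le_mul_right _ hbcard) _
  have h2 : ∑ u ∈ X \ Y, hits A B (σ u v * π u) ≤ (X \ Y).card * q := by
    calc ∑ u ∈ X \ Y, hits A B (σ u v * π u) ≤ ∑ u ∈ X \ Y, q :=
          sum_le_sum (fun u _ => hits_le_min A B _)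
      _ = (X \ Y).card * q := by rw [sum_const, smul_eq_mul]
  have h3 := sum_sdiff (f := fun u => hits A B (σ u v * π u)) hYX
  have h4 := card_sdiff_add_card_eq_card hYX
  have h5 : dg G U v = X.card := rfl
  rw [sum_add_distrib] at h1
  have h6 := hτs q Q hqaQ hqleQ hQD
  have h7 := hV q Q hqaQ hqleQ hQD
  have h8 : X.card * q ≤ d * q := by rw [← h5]; exact Nat.mul_le_mul_right _ hd
  have h9 : X.card * q = (X \ Y).card * q + Y.card * q := by rw [← h4, Nat.add_mul]
  rw [hqQ] at h7
  omega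

end Pool.Agent.Helper34.CP
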