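import Pool.Agent.Helper34.CP.Basic
import Pool.Agent.Helper34.CP.Decay

set_option autoImplicit false

namespace Pool.Agent.Helper34.CP

open Finset

/-- Averaging: one choice keeps all potentials under control. -/
theorem avg_step {α ι β : Type*} (P : Finset α) (hP : P.Nonempty) (Nv : Finset ι) (R : Finset β)
    (w : ι → β → ℕ) (bad : ι → β → α → Prop) [∀ v r a, Decidable (bad v r a)]
    (Bd : ι → ℝ) (ω ρ₀ η : ℝ) (hω : 1 ≤ ω)
    (hBd : ∀ v ∈ Nv, 0 < Bd v) (hold : ∀ v ∈ Nv, ∑ r ∈ R, ω ^ (w v r) ≤ Bd v)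
    (hbad : ∀ v ∈ Nv, ∀ r ∈ R, ((P.filter (fun a => bad v r a)).card : ℝ) ≤ ρ₀ * (P.card : ℝ))
    (hρ₀ : 0 ≤ ρ₀)
    (hη : (Nv.card : ℝ) * ((ω - 1) * ρ₀) ≤ η) :
    ∃ a ∈ P, ∀ v ∈ Nv, ∑ r ∈ R, ω ^ (w v r + if bad v r a then 1 else 0) ≤ (1 + η) * Bd v := by
  classical
  set g : ι → α → ℝ := fun v a => (∑ r ∈ R, ω ^ (w v r) * (if bad v r a then (ω - 1) else 0)) / Bd v
    with hg
  have hω0 : (0 : ℝ) ≤ ω - 1 := by linarith
  have hω1 : (0 : ℝ) < ω := by linarith
  have hgn : ∀ v ∈ Nv, ∀ a, 0 ≤ g v a := by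
    intro v hv a
    rw [hg]
    have := hBd v hv
    refine div_nonneg (sum_nonneg (fun r _ => ?_)) this.le
    have : (0 : ℝ) ≤ (if bad v r a then (ω - 1) else 0) := by split_ifs <;> simp [hω0]
    positivity
  have hsum1 : ∀ v ∈ Nv, ∑ a ∈ P, g v a ≤ (ω - 1) * ρ₀ * (P.card : ℝ) := by
    intro v hv
    have hB := hBd v hv
    rw [hg]
    simp only
    rw [← sum_div, div_le_iff₀ hB, sum_comm]
    calc ∑ r ∈ R, ∑ a ∈ P, ω ^ (w v r) * (if bad v r a then (ω - 1) else 0)
        = ∑ r ∈ R, ω ^ (w v r) * ((ω - 1) * ((P.filter (fun a => bad v r a)).card : ℝ)) := by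
          refine sum_congr rfl (fun r _ => ?_)
          rw [← mul_sum, ← sum_filter, sum_const, nsmul_eq_mul]
          ring
      _ ≤ ∑ r ∈ R, ω ^ (w v r) * ((ω - 1) * (ρ₀ * (P.card : ℝ))) := by
          refine sum_le_sum (fun r hr => ?_)
          refine mul_le_mul_of_nonneg_left ?_ (by positivity)
          exact mul_le_mul_of_nonneg_left (hbad v hv r hr) hω0
      _ = (∑ r ∈ R, ω ^ (w v r)) * ((ω - 1) * (ρ₀ * (P.card : ℝ))) := by rw [sum_mul]
      _ ≤ Bd v * ((ω - 1) * (ρ₀ * (P.card : ℝ))) := by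
          refine mul_le_mul_of_nonneg_right (hold v hv) (by positivity)
      _ = (ω - 1) * ρ₀ * (P.card : ℝ) * Bd v := by ring
  have hsum2 : ∑ a ∈ P, ∑ v ∈ Nv, g v a ≤ ∑ a ∈ P, η := by
    rw [sum_comm]
    calc ∑ v ∈ Nv, ∑ a ∈ P, g v a ≤ ∑ v ∈ Nv, (ω - 1) * ρ₀ * (P.card : ℝ) := sum_le_sum hsum1
      _ = ((Nv.card : ℝ) * ((ω - 1) * ρ₀)) * (P.card : ℝ) := by rw [sum_const, nsmul_eq_mul]; ring
      _ ≤ η * (P.card : ℝ) := mul_le_mul_of_nonneg_right hη (Nat.cast_nonneg _)
      _ = ∑ a ∈ P, η := by rw [sum_const, nsmul_eq_mul]; ring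
  obtain ⟨a, haP, ha⟩ := exists_le_of_sum_le hP hsum2
  refine ⟨a, haP, fun v hv => ?_⟩
  have hB := hBd v hv
  have h1 : g v a ≤ η := by
    refine le_trans ?_ ha
    exact single_le_sum (f := fun v => g v a) (fun v hv => hgn v hv a) hv
  rw [hg] at h1
  simp only at h1
  rw [div_le_iff₀ hB] at h1
  have h2 : ∑ r ∈ R, ω ^ (w v r + if bad v r a then 1 else 0) =
      ∑ r ∈ R, ω ^ (w v r) + ∑ r ∈ R, ω ^ (w v r) * (if bad v r a then (ω - 1) else 0) := by
    rw [← sum_add_distrib]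
    refine sum_congr rfl (fun r _ => ?_)
    by_cases h : bad v r a
    · rw [if_pos h, if_pos h, pow_succ]; ring
    · rw [if_neg h, if_neg h]; simp
  rw [h2]
  have := hold v hv
  nlinarith

variable {V : Type} [Fintype V] [DecidableEq V] {m : ℕ}

theorem adm_row (G : SimpleGraph V) [DecidableRel G.Adj] (σ : V → V → Equiv.Perm (Fin m))
    (U : Finset V) (π : V → Equiv.Perm (Fin m)) (v : V) (d δ : ℕ)
    [∀ i b, Decidable (Adm G σ U π v i b)]
    (hd : (U.filter (fun u => G.Adj u v)).card ≤ d) (hdδ : d + δ ≤ m) (i : Fin m) :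
    δ ≤ (univ.filter (fun b => Adm G σ U π v i b)).card := by
  classical
  have h1 := card_filter_add_card_filter_not (s := (univ : Finset (Fin m)))
    (fun b => Adm G σ U π v i b)
  have h2 : (univ.filter (fun b => ¬ Adm G σ U π v i b)) ⊆
      (U.filter (fun u => G.Adj u v)).image (fun u => σ u v (π u i)) := by
    intro b hb
    rw [mem_filter] at hb
    have := hb.2
    unfold Adm at this
    push Not at this
    obtain ⟨u, hu, huv, hb⟩ := this
    rw [mem_image]
    exact ⟨u, by rw [mem_filter]; exact ⟨hu, huv⟩, hb.symm⟩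
  have h3 := (card_le_card h2).trans card_image_le
  rw [card_univ, Fintype.card_fin] at h1
  omega

theorem adm_col (G : SimpleGraph V) [DecidableRel G.Adj] (σ : V → V → Equiv.Perm (Fin m))
    (U : Finset V) (π : V → Equiv.Perm (Fin m)) (v : V) (d δ : ℕ)
    [∀ i b, Decidable (Adm G σ U π v i b)]
    (hd : (U.filter (fun u => G.Adj u v)).card ≤ d) (hdδ : d + δ ≤ m) (b : Fin m) :
    δ ≤ (univ.filter (fun i => Adm G σ U π v i b)).card := by
  classical
  have h1 := card_filter_add_card_filter_not (s := (univ : Finset (Fin m)))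
    (fun i => Adm G σ U π v i b)
  have h2 : (univ.filter (fun i => ¬ Adm G σ U π v i b)) ⊆
      (U.filter (fun u => G.Adj u v)).image (fun u => (π u).symm ((σ u v).symm b)) := by
    intro i hi
    rw [mem_filter] at hi
    have := hi.2
    unfold Adm at this
    push Not at this
    obtain ⟨u, hu, huv, hb⟩ := this
    rw [mem_image]
    refine ⟨u, by rw [mem_filter]; exact ⟨hu, huv⟩, ?_⟩
    rw [hb]
    simp
  have h3 := (card_le_card h2).trans card_image_le
  rw [card_univ, Fintype.card_fin] at h1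
  omega

theorem admS_nonempty (H : Fin m → Fin m → Prop) [∀ i b, Decidable (H i b)] (δ : ℕ)
    (hrow : ∀ i, δ ≤ (univ.filter (fun b => H i b)).card)
    (hcol : ∀ b, δ ≤ (univ.filter (fun i => H i b)).card)
    (hδ : m ≤ 2 * δ) : (admS H).Nonempty := by
  rcases exists_perm_or_blocked H with ⟨ρ, hρ⟩ | ⟨A, B, hAB, hbl⟩
  · refine ⟨ρ, ?_⟩
    unfold admS
    rw [mem_filter]
    exact ⟨mem_univ _, hρ⟩
  · exfalso
    have hAm : A.card ≤ m := by simpa using card_le_univ A
    have hBm : B.card ≤ m := by simpa using card_le_univ B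
    have hA0 : A.Nonempty := by rw [← card_pos]; omega
    have hB0 : B.Nonempty := by rw [← card_pos]; omega
    obtain ⟨a, ha⟩ := hA0
    obtain ⟨b, hb⟩ := hB0
    have h1 := card_filter_add_card_filter_not (s := (univ : Finset (Fin m))) (fun b => H a b)
    have h2 := card_filter_add_card_filter_not (s := (univ : Finset (Fin m))) (fun i => H i b)
    rw [card_univ, Fintype.card_fin] at h1 h2
    have h3 : B.card ≤ (univ.filter (fun b => ¬ H a b)).card := by
      refine card_le_card ?_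
      intro c hc
      rw [mem_filter]
      exact ⟨mem_univ _, hbl a ha c hc⟩
    have h4 : A.card ≤ (univ.filter (fun i => ¬ H i b)).card := by
      refine card_le_card ?_
      intro c hc
      rw [mem_filter]
      exact ⟨mem_univ _, hbl c hc b hb⟩
    have := hrow a
    have := hcol b
    omega

end Pool.Agent.Helper34.CP
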