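import Pool.Agent.Helper34.CP.Local

set_option autoImplicit false

namespace Pool.Agent.Helper34.CP

open Finset

variable {V : Type} [Fintype V] [DecidableEq V] {m : ℕ}

/-- threshold of layer `i` -/
def tt (r : ℕ) (w : ℕ → ℕ → ℕ) (i q : ℕ) : ℕ := ∑ i' ∈ Ico i r, w i' q

/-- numeric side conditions -/
structure Num (m D r : ℕ) (Lam : ℕ → ℕ) (w : ℕ → ℕ → ℕ) (g c0 : ℕ) (x C ω η : ℝ) : Prop where
  hm : 0 < m
  hLam : ∀ i < r, 2 * Lam i ≤ m
  hτ : ∀ i < r, ∀ q Q, q + Q = m + 1 → q ≤ Q → Q ≤ D → tt r w i q = 0 ∨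
      ∃ j0, tt r w i q + g ≤ j0 ∧ 2 * j0 ≤ m ∧ RowOK m (m - Lam i) q Q j0 x
  hx : 0 < x
  hx1 : x ≤ 1
  hC : 0 ≤ C
  hxC : x * (C + 1) ≤ C
  hω : 1 ≤ ω
  hη0 : 0 ≤ η
  hη : (D : ℝ) * ((ω - 1) * (C * x ^ g)) ≤ η
  hpot : 4 ^ m * (1 + η) ^ D < ω ^ (c0 + 1)

theorem pow_lt_exp (ω X : ℝ) (hω : 1 ≤ ω) (a b : ℕ) (h1 : ω ^ a ≤ X) (h2 : X < ω ^ (b + 1)) : a ≤ b := by
  by_contra h
  push Not at h
  have : ω ^ (b + 1) ≤ ω ^ a := pow_le_pow_right₀ hω h
  linarith

theorem rowOK_lt {m δ q Q j0 : ℕ} {x : ℝ} (h : RowOK m δ q Q j0 x) (hx : 0 < x) (hj0 : 0 < j0)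
    (hm : 2 * j0 ≤ m) (hqQ : q ≤ Q) : j0 < q := by
  unfold RowOK at h
  by_contra hc
  push Not at hc
  have h1 : q - j0 = 0 := by omega
  rw [h1, Nat.zero_mul] at h
  push_cast at h
  rw [mul_zero] at h
  have h2 : 0 < (Q + j0 - q) * (m - j0) := Nat.mul_pos (by omega) (by omega)
  have h3 : (0 : ℝ) < (((Q + j0 - q) * (m - j0) : ℕ) : ℝ) := by exact_mod_cast h2
  have h4 : (0 : ℝ) < (j0 : ℝ) := by exact_mod_cast hj0
  have h5 : (0 : ℝ) < (j0 : ℝ) * (((Q + j0 - q) * (m - j0) : ℕ) : ℝ) := mul_pos h4 h3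
  push_cast at h5
  linarith

/-- the vertex threshold -/
def tau (r : ℕ) (w : ℕ → ℕ → ℕ) (F : ℕ → Finset V) (u : V) (q : ℕ) : ℕ :=
  ∑ i ∈ range r, if u ∈ F (i + 1) then w i q else 0

theorem mono_layers {F : ℕ → Finset V} (h : ∀ i, F i ⊆ F (i + 1)) {i j : ℕ} (hij : i ≤ j) :
    F i ⊆ F j := by
  induction j, hij using Nat.le_induction with
  | base => exact Subset.refl _
  | succ j _ ih => exact ih.trans (h j)

theorem tau_eq (r : ℕ) (w : ℕ → ℕ → ℕ) (F : ℕ → Finset V) (hF : ∀ i, F i ⊆ F (i + 1))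
    (i : ℕ) (u : V) (hu : u ∈ F (i + 1) \ F i) (q : ℕ) : tau r w F u q = tt r w i q := by
  unfold tau tt
  rw [mem_sdiff] at hu
  rw [← sum_filter]
  refine sum_congr ?_ (fun _ _ => rfl)
  ext i'
  rw [mem_filter, mem_range, mem_Ico]
  constructor
  · rintro ⟨h1, h2⟩
    refine ⟨?_, h1⟩
    by_contra hc
    push Not at hc
    exact hu.2 (mono_layers hF (by omega : i' + 1 ≤ i) h2)
  · rintro ⟨h1, h2⟩
    exact ⟨h2, mono_layers hF (by omega : i + 1 ≤ i' + 1) hu.1⟩

theorem layer_of {F : ℕ → Finset V} (h0 : F 0 = ∅) (r : ℕ) (u : V) (hu : u ∈ F r) :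
    ∃ i < r, u ∈ F (i + 1) \ F i := by
  induction r with
  | zero => rw [h0] at hu; exact absurd hu (notMem_empty u)
  | succ r ih =>
    by_cases h : u ∈ F r
    · obtain ⟨i, hi, h⟩ := ih h
      exact ⟨i, by omega, h⟩
    · exact ⟨r, by omega, mem_sdiff.2 ⟨hu, h⟩⟩

theorem sum_tau (G : SimpleGraph V) [DecidableRel G.Adj]
    (r : ℕ) (w : ℕ → ℕ → ℕ) (F : ℕ → Finset V) (hF : ∀ i, F i ⊆ F (i + 1)) (v : V) (q : ℕ) :
    ∑ u ∈ (F r).filter (fun u => G.Adj u v), tau r w F u q =
      ∑ i ∈ range r, w i q * dg G (F (i + 1)) v := by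
  unfold tau
  rw [sum_comm]
  refine sum_congr rfl (fun i hi => ?_)
  rw [mem_range] at hi
  rw [← sum_filter, sum_const, smul_eq_mul, Nat.mul_comm]
  congr 1
  unfold dg
  congr 1
  ext u
  rw [mem_filter, mem_filter, mem_filter]
  constructor
  · rintro ⟨⟨_, h1⟩, h2⟩
    exact ⟨h2, h1⟩
  · rintro ⟨h1, h2⟩
    exact ⟨⟨mono_layers hF (by omega : i + 1 ≤ r) h1, h2⟩, h1⟩

theorem local_step (G : SimpleGraph V) [DecidableRel G.Adj] (σ : V → V → Equiv.Perm (Fin m))
    (hσ : ∀ u v, G.Adj u v → σ v u = (σ u v).symm)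
    (S T : Finset V) (hTS : T ⊆ S)
    (D r g c0 : ℕ) (Lam : ℕ → ℕ) (w : ℕ → ℕ → ℕ) (x C ω η : ℝ)
    (hn : Num m D r Lam w g c0 x C ω η)
    (π0 : V → Equiv.Perm (Fin m)) (h0 : PackOn G σ (S \ T) π0)
    (hD : ∀ v ∈ T, dg G S v ≤ D)
    (hV : ∀ v ∈ T, VOK m D r Lam w c0 (dg G S v) (dg G (S \ T) v)) :
    ∃ π, PackOn G σ S π := by
  classical
  obtain ⟨F, hF0, hFs, hFT, hF1, hF2⟩ := exists_layers G T (fun v => dg G (S \ T) v) Lam
  have hη0 := hn.hη0
  have hlay : ∀ i ≤ r, ∃ π, PackOn G σ ((S \ T) ∪ F i) π ∧ ∀ v ∈ T \ F r,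
      ∑ R ∈ rects m D, ω ^ (bc G σ (tau r w F) (F i) π v R) ≤
        4 ^ m * (1 + η) ^ (dg G (F i) v) := by
    intro i
    induction i with
    | zero =>
      intro _
      refine ⟨π0, by rw [hF0, union_empty]; exact h0, fun v _ => ?_⟩
      rw [hF0]
      unfold bc dg
      simp only [filter_empty, card_empty, pow_zero, sum_const, nsmul_eq_mul, mul_one]
      exact_mod_cast card_rects m D
    | succ i ih =>
      intro hi
      obtain ⟨π, hπ, hpot⟩ := ih (by omega)
      have hsub : F (i + 1) \ F i ⊆ T := sdiff_subset.trans (hFT (i + 1))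
      have e1 : (S \ T) ∪ F i ∪ (F (i + 1) \ F i) = (S \ T) ∪ F (i + 1) := by
        rw [union_assoc, union_sdiff_of_subset (hFs i)]
      have e2 : F i ∪ (F (i + 1) \ F i) = F (i + 1) := union_sdiff_of_subset (hFs i)
      obtain ⟨π', hπ', hpot'⟩ := color_layer G σ hσ hn.hm (tau r w F) ((S \ T) ∪ F i) (F i)
        (F (i + 1) \ F i) (T \ F r)
        (by
          rw [disjoint_union_right]
          exact ⟨disjoint_of_subset_left hsub disjoint_sdiff, sdiff_disjoint⟩)
        subset_union_right π hπ (Lam i) D g x C ω η hpot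
        (by
          intro u hu
          rw [e1]
          refine le_trans ?_ (hF1 i u hu)
          unfold dg
          rw [filter_union]
          exact card_union_le _ _)
        (hn.hLam i (by omega))
        (by
          intro u hu
          refine le_trans ?_ (hD u (hsub hu))
          unfold dg
          refine card_le_card ?_
          intro w hw
          rw [mem_filter] at hw ⊢
          exact ⟨hTS (mem_sdiff.1 hw.1).1, hw.2.symm⟩)
        (by
          intro u hu q Q h1 h2 h3
          rw [tau_eq r w F hFs i u hu q]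
          exact hn.hτ i (by omega) q Q h1 h2 h3)
        hn.hx hn.hx1 hn.hC hn.hxC hn.hω hn.hη0 hn.hη _ (Subset.refl _)
      rw [e1] at hπ'
      rw [e2] at hpot'
      exact ⟨π', hπ', hpot'⟩
  obtain ⟨π1, hπ1, hpot1⟩ := hlay r le_rfl
  have hbc : ∀ v ∈ T \ F r, ∀ R ∈ rects m D, bc G σ (tau r w F) (F r) π1 v R ≤ c0 := by
    intro v hv R hR
    refine pow_lt_exp ω _ hn.hω _ _ ?_ hn.hpot
    have hω0 : (0 : ℝ) ≤ ω := by linarith [hn.hω]
    calc ω ^ bc G σ (tau r w F) (F r) π1 v R
        ≤ ∑ R ∈ rects m D, ω ^ (bc G σ (tau r w F) (F r) π1 v R) :=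
          single_le_sum (f := fun R => ω ^ (bc G σ (tau r w F) (F r) π1 v R))
            (fun R _ => by positivity) hR
      _ ≤ 4 ^ m * (1 + η) ^ (dg G (F r) v) := hpot1 v hv
      _ ≤ 4 ^ m * (1 + η) ^ D := by
          refine mul_le_mul_of_nonneg_left ?_ (by positivity)
          refine pow_le_pow_right₀ (by linarith) ?_
          refine le_trans ?_ (hD v (mem_sdiff.1 hv).1)
          exact card_le_card (filter_subset_filter _ ((hFT r).trans hTS))
  -- colour the rest greedily
  have hrest : ∀ N' ⊆ T \ F r, ∃ π, PackOn G σ ((S \ T) ∪ F r ∪ N') π ∧ ∀ u ∈ F r, π u = π1 u := by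
    intro N'
    induction N' using Finset.induction_on with
    | empty =>
      intro _
      exact ⟨π1, by simpa using hπ1, fun u _ => rfl⟩
    | insert v N' hv ih =>
      intro hsub
      have hvN : v ∈ T \ F r := hsub (mem_insert_self _ _)
      obtain ⟨π, hπ, hag⟩ := ih ((subset_insert _ _).trans hsub)
      set U := (S \ T) ∪ F r ∪ N' with hU
      have hvU : v ∉ U := by
        rw [mem_sdiff] at hvN
        rw [hU, mem_union, mem_union, mem_sdiff]
        rintro ((⟨_, h⟩ | h) | h)
        · exact h hvN.1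
        · exact hvN.2 h
        · exact hv h
      have hUS : U ⊆ S := by
        rw [hU]
        refine union_subset (union_subset sdiff_subset ((hFT r).trans hTS)) ?_
        exact ((subset_insert _ _).trans hsub).trans (sdiff_subset.trans hTS)
      have hFU : F r ⊆ U := by
        rw [hU]
        exact subset_union_right.trans subset_union_left
      rcases exists_perm_or_blocked (Adm G σ U π v) with ⟨ρ, hρ⟩ | ⟨A, B, hAB, hbl⟩
      · refine ⟨Function.update π v ρ, ?_, ?_⟩
        · have h1 : (S \ T) ∪ F r ∪ insert v N' = insert v U := by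
            rw [hU, union_insert]
          rw [h1]
          exact packOn_insert G σ hσ U π hπ v hvU ρ hρ
        · intro u hu
          have : u ≠ v := fun h => hvU (h ▸ hFU hu)
          rw [Function.update_of_ne this]
          exact hag u hu
      · exfalso
        refine not_blocked G σ U (F r) hFU π v D r c0 (dg G S v) (dg G (S \ T) v) Lam w
          (tau r w F) ?_ (hD v (mem_sdiff.1 hvN).1) ?_ ?_ ?_ (hV v (mem_sdiff.1 hvN).1) A B hAB hbl
        · exact card_le_card (filter_subset_filter _ hUS)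
        · intro R hR
          have h1 : bc G σ (tau r w F) (F r) π v R = bc G σ (tau r w F) (F r) π1 v R := by
            unfold bc
            congr 1
            refine filter_congr (fun u hu => ?_)
            rw [hag u hu]
          rw [h1]
          exact hbc v hvN R hR
        · intro u hu q Q h1 h2 h3
          obtain ⟨i, hi, hui⟩ := layer_of hF0 r u hu
          rw [tau_eq r w F hFs i u hui q]
          rcases hn.hτ i hi q Q h1 h2 h3 with h | ⟨j0, hj1, hj2, hj3⟩
          · rw [h]; exact Nat.zero_le _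
          · rcases Nat.eq_zero_or_pos j0 with h | h
            · omega
            · have := rowOK_lt hj3 hn.hx h hj2 h2
              omega
        · intro q Q _ _ _
          rw [sum_tau G r w F hFs v q]
          refine sum_le_sum (fun i hi => ?_)
          refine Nat.mul_le_mul_left _ ?_
          rw [mem_range] at hi
          have hvi : v ∈ T \ F (i + 1) := by
            rw [mem_sdiff] at hvN ⊢
            exact ⟨hvN.1, fun h => hvN.2 (mono_layers hFs (by omega : i + 1 ≤ r) h)⟩
          have := hF2 i v hvi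
          omega
  obtain ⟨π, hπ, _⟩ := hrest (T \ F r) (Subset.refl _)
  refine ⟨π, ?_⟩
  have h1 : (S \ T) ∪ F r ∪ (T \ F r) = S := by
    rw [union_assoc, union_sdiff_of_subset (hFT r), sdiff_union_of_subset hTS]
  rw [h1] at hπ
  exact hπ

/-- a vertex of small degree can always be coloured last -/
theorem small_degree (G : SimpleGraph V) [DecidableRel G.Adj] (σ : V → V → Equiv.Perm (Fin m))
    (hσ : ∀ u v, G.Adj u v → σ v u = (σ u v).symm)
    (S : Finset V) (v : V) (hv : v ∈ S) (hd : 2 * dg G S v ≤ m)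
    (π0 : V → Equiv.Perm (Fin m)) (h0 : PackOn G σ (S.erase v) π0) :
    ∃ π, PackOn G σ S π := by
  classical
  rcases exists_perm_or_blocked (Adm G σ (S.erase v) π0 v) with ⟨ρ, hρ⟩ | ⟨A, B, hAB, hbl⟩
  · refine ⟨Function.update π0 v ρ, ?_⟩
    have := packOn_insert G σ hσ (S.erase v) π0 h0 v (notMem_erase v S) ρ hρ
    rw [insert_erase hv] at this
    exact this
  · exfalso
    have hcount := blocked_count G σ (S.erase v) π0 v A B hbl
    have hcount' : A.card * B.card ≤
      ∑ u ∈ (S.erase v).filter (fun u => G.Adj u v), hits A B (σ u v * π0 u) := hcount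
    have hqQ : min A.card B.card * max A.card B.card = A.card * B.card := min_mul_max _ _
    have hqaQ : min A.card B.card + max A.card B.card = m + 1 := by rw [min_add_max, hAB]
    have hqleQ : min A.card B.card ≤ max A.card B.card := min_le_max
    have hAm : A.card ≤ m := by simpa using card_le_univ A
    have hBm : B.card ≤ m := by simpa using card_le_univ B
    have hq0 : 0 < min A.card B.card := lt_min (by omega) (by omega)
    have hub : ∑ u ∈ (S.erase v).filter (fun u => G.Adj u v), hits A B (σ u v * π0 u) ≤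
        dg G S v * min A.card B.card := by
      calc ∑ u ∈ (S.erase v).filter (fun u => G.Adj u v), hits A B (σ u v * π0 u)
          ≤ ∑ u ∈ (S.erase v).filter (fun u => G.Adj u v), min A.card B.card :=
            sum_le_sum (fun u _ => hits_le_min A B _)
        _ = dg G (S.erase v) v * min A.card B.card := by rw [sum_const, smul_eq_mul]; rfl
        _ ≤ dg G S v * min A.card B.card := by
            refine Nat.mul_le_mul_right _ ?_
            exact card_le_card (filter_subset_filter _ (erase_subset _ _))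
    have h1 : max A.card B.card * min A.card B.card ≤ dg G S v * min A.card B.card := by
      rw [Nat.mul_comm, hqQ]
      exact hcount'.trans hub
    have h2 := Nat.le_of_mul_le_mul_right h1 hq0
    omega

end Pool.Agent.Helper34.CP
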