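import Mathlib

set_option autoImplicit false

namespace Pool.Agent.Helper34.CP

open Finset

variable {m : ℕ}

/-- misses of `A` outside `B` under `π`. -/
def miss (A B : Finset (Fin m)) (π : Equiv.Perm (Fin m)) : ℕ := (A.filter (fun a => π a ∉ B)).card

/-- admissible permutations with exactly `j` misses. -/
def cls (H : Fin m → Fin m → Prop) [∀ i b, Decidable (H i b)] (A B : Finset (Fin m)) (j : ℕ) :
    Finset (Equiv.Perm (Fin m)) :=
  univ.filter (fun π => (∀ i, H i (π i)) ∧ miss A B π = j)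

/-- valid switching triples -/
def Val (H : Fin m → Fin m → Prop) (A B : Finset (Fin m)) (π : Equiv.Perm (Fin m))
    (a a' a'' : Fin m) : Prop :=
  a ∈ A ∧ π a ∈ B ∧ a' ∉ A ∧ π a' ∉ B ∧ H a (π a') ∧ a'' ≠ a ∧ a'' ≠ a' ∧ H a' (π a'') ∧
    H a'' (π a) ∧ ¬ (a'' ∈ A ∧ π a'' ∉ B)

instance (H : Fin m → Fin m → Prop) [∀ i b, Decidable (H i b)] (A B : Finset (Fin m))
    (π : Equiv.Perm (Fin m)) (a a' a'' : Fin m) : Decidable (Val H A B π a a' a'') := by
  unfold Val; infer_instance

theorem card_row (π : Equiv.Perm (Fin m)) (P : Fin m → Prop) [DecidablePred P] :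
    (univ.filter (fun x => P (π x))).card = (univ.filter P).card := by
  refine card_bij (fun x _ => π x) ?_ ?_ ?_
  · intro a ha
    simpa using ha
  · intro a _ b _ h
    exact π.injective h
  · intro b hb
    refine ⟨π.symm b, ?_, by simp⟩
    simpa using hb

theorem third_count (H : Fin m → Fin m → Prop) [∀ i b, Decidable (H i b)] (A B : Finset (Fin m))
    (δ j : ℕ) (hrow : ∀ i, δ ≤ (univ.filter (fun b => H i b)).card)
    (hcol : ∀ b, δ ≤ (univ.filter (fun i => H i b)).card)
    (π : Equiv.Perm (Fin m)) (hj : miss A B π = j) (a a' : Fin m)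
    (h1 : a ∈ A) (h2 : π a ∈ B) (h3 : a' ∉ A) (h4 : π a' ∉ B) (h5 : H a (π a')) :
    2 * δ - m - 2 - j ≤ (univ.filter (fun a'' => Val H A B π a a' a'')).card := by
  set X := univ.filter (fun x => H a' (π x)) with hX
  set Y := univ.filter (fun x => H x (π a)) with hY
  have hXc : δ ≤ X.card := by rw [hX, card_row π (fun b => H a' b)]; exact hrow a'
  have hYc : δ ≤ Y.card := hcol (π a)
  have hXY : 2 * δ ≤ (X ∩ Y).card + m := by
    have h := card_union_add_card_inter X Y
    have h' : (X ∪ Y).card ≤ m := by simpa using card_le_univ (X ∪ Y)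
    omega
  have hsub : (X ∩ Y) ⊆ (univ.filter (fun a'' => Val H A B π a a' a'')) ∪
      ({a, a'} ∪ A.filter (fun x => π x ∉ B)) := by
    intro x hx
    rw [mem_inter, hX, hY, mem_filter, mem_filter] at hx
    obtain ⟨⟨_, hx1⟩, ⟨_, hx2⟩⟩ := hx
    by_cases hxa : x = a
    · simp [hxa]
    by_cases hxa' : x = a'
    · simp [hxa']
    by_cases hxA : x ∈ A ∧ π x ∉ B
    · simp [hxA]
    · rw [mem_union]
      left
      rw [mem_filter]
      exact ⟨mem_univ _, h1, h2, h3, h4, h5, hxa, hxa', hx1, hx2, hxA⟩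
  have hc := card_le_card hsub
  have hc2 := card_union_le (univ.filter (fun a'' => Val H A B π a a' a''))
      ({a, a'} ∪ A.filter (fun x => π x ∉ B))
  have hc3 := card_union_le ({a, a'} : Finset (Fin m)) (A.filter (fun x => π x ∉ B))
  have hc4 : ({a, a'} : Finset (Fin m)).card ≤ 2 := card_le_two
  have hc5 : (A.filter (fun x => π x ∉ B)).card = j := hj
  omega

theorem second_count (H : Fin m → Fin m → Prop) [∀ i b, Decidable (H i b)] (A B : Finset (Fin m))
    (δ j : ℕ) (hrow : ∀ i, δ ≤ (univ.filter (fun b => H i b)).card)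
    (π : Equiv.Perm (Fin m)) (hj : miss A B π = j) (a : Fin m) :
    δ - B.card - j ≤ (univ.filter (fun a' => a' ∉ A ∧ π a' ∉ B ∧ H a (π a'))).card := by
  set X := univ.filter (fun x => H a (π x)) with hX
  have hXc : δ ≤ X.card := by rw [hX, card_row π (fun b => H a b)]; exact hrow a
  have hsub : X ⊆ (univ.filter (fun a' => a' ∉ A ∧ π a' ∉ B ∧ H a (π a'))) ∪
      ((univ.filter (fun x => π x ∈ B)) ∪ A.filter (fun x => π x ∉ B)) := by
    intro x hx
    rw [hX, mem_filter] at hx
    by_cases hxB : π x ∈ B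
    · simp [hxB]
    · by_cases hxA : x ∈ A
      · simp [hxA, hxB]
      · simp [hxA, hxB, hx.2]
  have hc := card_le_card hsub
  have hc2 := card_union_le (univ.filter (fun a' => a' ∉ A ∧ π a' ∉ B ∧ H a (π a')))
      ((univ.filter (fun x => π x ∈ B)) ∪ A.filter (fun x => π x ∉ B))
  have hc3 := card_union_le (univ.filter (fun x => π x ∈ B)) (A.filter (fun x => π x ∉ B))
  have hc4 : (univ.filter (fun x => π x ∈ B)).card = B.card := by
    rw [card_row π (fun b => b ∈ B)]
    congr 1
    ext b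
    simp
  have hc5 : (A.filter (fun x => π x ∉ B)).card = j := hj
  omega

theorem triple_count (H : Fin m → Fin m → Prop) [∀ i b, Decidable (H i b)] (A B : Finset (Fin m))
    (δ j : ℕ) (hrow : ∀ i, δ ≤ (univ.filter (fun b => H i b)).card)
    (hcol : ∀ b, δ ≤ (univ.filter (fun i => H i b)).card)
    (π : Equiv.Perm (Fin m)) (hj : miss A B π = j) :
    (A.card - j) * ((δ - B.card - j) * (2 * δ - m - 2 - j)) ≤
      (univ.filter (fun p : Fin m × Fin m × Fin m => Val H A B π p.1 p.2.1 p.2.2)).card := by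
  have h0 : (univ.filter (fun p : Fin m × Fin m × Fin m => Val H A B π p.1 p.2.1 p.2.2)).card =
      ∑ a, ∑ a', (univ.filter (fun a'' => Val H A B π a a' a'')).card := by
    rw [card_filter, Fintype.sum_prod_type]
    refine sum_congr rfl (fun a _ => ?_)
    rw [Fintype.sum_prod_type]
    refine sum_congr rfl (fun a' _ => ?_)
    rw [card_filter]
  rw [h0]
  have hA : A.card - j ≤ (A.filter (fun a => π a ∈ B)).card := by
    have := card_filter_add_card_filter_not (s := A) (fun a => π a ∈ B)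
    have hc5 : (A.filter (fun x => π x ∉ B)).card = j := hj
    omega
  calc (A.card - j) * ((δ - B.card - j) * (2 * δ - m - 2 - j))
      ≤ (A.filter (fun a => π a ∈ B)).card * ((δ - B.card - j) * (2 * δ - m - 2 - j)) :=
        Nat.mul_le_mul_right _ hA
    _ = ∑ a ∈ A.filter (fun a => π a ∈ B), ((δ - B.card - j) * (2 * δ - m - 2 - j)) := by
        rw [sum_const, smul_eq_mul]
    _ ≤ ∑ a ∈ A.filter (fun a => π a ∈ B), ∑ a', (univ.filter (fun a'' => Val H A B π a a' a'')).card := by
        refine sum_le_sum (fun a ha => ?_)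
        rw [mem_filter] at ha
        calc (δ - B.card - j) * (2 * δ - m - 2 - j)
            ≤ (univ.filter (fun a' => a' ∉ A ∧ π a' ∉ B ∧ H a (π a'))).card * (2 * δ - m - 2 - j) :=
              Nat.mul_le_mul_right _ (second_count H A B δ j hrow π hj a)
          _ = ∑ a' ∈ univ.filter (fun a' => a' ∉ A ∧ π a' ∉ B ∧ H a (π a')), (2 * δ - m - 2 - j) := by
              rw [sum_const, smul_eq_mul]
          _ ≤ ∑ a' ∈ univ.filter (fun a' => a' ∉ A ∧ π a' ∉ B ∧ H a (π a')),
                (univ.filter (fun a'' => Val H A B π a a' a'')).card := by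
              refine sum_le_sum (fun a' ha' => ?_)
              rw [mem_filter] at ha'
              exact third_count H A B δ j hrow hcol π hj a a' ha.1 ha.2 ha'.2.1 ha'.2.2.1 ha'.2.2.2
          _ ≤ ∑ a', (univ.filter (fun a'' => Val H A B π a a' a'')).card :=
              sum_le_sum_of_subset (subset_univ _)
    _ ≤ ∑ a, ∑ a', (univ.filter (fun a'' => Val H A B π a a' a'')).card :=
        sum_le_sum_of_subset (subset_univ _)

/-- the 3-cycle `a ↦ a' ↦ a'' ↦ a`. -/
def cyc (a a' a'' : Fin m) : Equiv.Perm (Fin m) := Equiv.swap a a' * Equiv.swap a' a''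

theorem cyc_1 {a a' a'' : Fin m} (h1 : a ≠ a') (h2 : a'' ≠ a) : cyc a a' a'' a = a' := by
  unfold cyc
  rw [Equiv.Perm.mul_apply, Equiv.swap_apply_of_ne_of_ne h1 h2.symm, Equiv.swap_apply_left]

theorem cyc_2 {a a' a'' : Fin m} (h2 : a'' ≠ a) (h3 : a'' ≠ a') : cyc a a' a'' a' = a'' := by
  unfold cyc
  rw [Equiv.Perm.mul_apply, Equiv.swap_apply_left, Equiv.swap_apply_of_ne_of_ne h2 h3]

theorem cyc_3 {a a' a'' : Fin m} : cyc a a' a'' a'' = a := by
  unfold cyc
  rw [Equiv.Perm.mul_apply, Equiv.swap_apply_right, Equiv.swap_apply_right]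

theorem cyc_4 {a a' a'' x : Fin m} (h1 : x ≠ a) (h2 : x ≠ a') (h3 : x ≠ a'') :
    cyc a a' a'' x = x := by
  unfold cyc
  rw [Equiv.Perm.mul_apply, Equiv.swap_apply_of_ne_of_ne h2 h3, Equiv.swap_apply_of_ne_of_ne h1 h2]

theorem switch_mem (H : Fin m → Fin m → Prop) [∀ i b, Decidable (H i b)] (A B : Finset (Fin m))
    (j : ℕ) (π : Equiv.Perm (Fin m)) (hπ : π ∈ cls H A B j) (a a' a'' : Fin m)
    (hv : Val H A B π a a' a'') :
    π * cyc a a' a'' ∈ cls H A B (j + 1) ∧ (π * cyc a a' a'') a ∉ B := by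
  obtain ⟨h1, h2, h3, h4, h5, h6, h7, h8, h9, h10⟩ := hv
  have haa' : a ≠ a' := fun h => h3 (h ▸ h1)
  unfold cls at hπ
  rw [mem_filter] at hπ
  obtain ⟨_, hadm, hmiss⟩ := hπ
  have e1 : (π * cyc a a' a'') a = π a' := by rw [Equiv.Perm.mul_apply, cyc_1 haa' h6]
  have e2 : (π * cyc a a' a'') a' = π a'' := by rw [Equiv.Perm.mul_apply, cyc_2 h6 h7]
  have e3 : (π * cyc a a' a'') a'' = π a := by rw [Equiv.Perm.mul_apply, cyc_3]
  have e4 : ∀ x, x ≠ a → x ≠ a' → x ≠ a'' → (π * cyc a a' a'') x = π x := by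
    intro x hx1 hx2 hx3
    rw [Equiv.Perm.mul_apply, cyc_4 hx1 hx2 hx3]
  refine ⟨?_, by rw [e1]; exact h4⟩
  unfold cls
  rw [mem_filter]
  refine ⟨mem_univ _, ?_, ?_⟩
  · intro i
    by_cases hi1 : i = a
    · subst hi1; rw [e1]; exact h5
    by_cases hi2 : i = a'
    · subst hi2; rw [e2]; exact h8
    by_cases hi3 : i = a''
    · subst hi3; rw [e3]; exact h9
    rw [e4 i hi1 hi2 hi3]
    exact hadm i
  · have hset : A.filter (fun x => (π * cyc a a' a'') x ∉ B) = insert a (A.filter (fun x => π x ∉ B)) := by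
      ext x
      rw [mem_filter, mem_insert, mem_filter]
      constructor
      · rintro ⟨hxA, hxB⟩
        by_cases hx1 : x = a
        · left; exact hx1
        right
        refine ⟨hxA, ?_⟩
        by_cases hx2 : x = a'
        · exact absurd (hx2 ▸ hxA) h3
        by_cases hx3 : x = a''
        · subst hx3
          rw [e3] at hxB
          exact absurd h2 hxB
        rw [e4 x hx1 hx2 hx3] at hxB
        exact hxB
      · rintro (hx | ⟨hxA, hxB⟩)
        · subst hx
          exact ⟨h1, by rw [e1]; exact h4⟩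
        · refine ⟨hxA, ?_⟩
          have hx1 : x ≠ a := fun h => hxB (h ▸ h2)
          have hx2 : x ≠ a' := fun h => h3 (h ▸ hxA)
          have hx3 : x ≠ a'' := fun h => h10 ⟨h ▸ hxA, h ▸ hxB⟩
          rw [e4 x hx1 hx2 hx3]
          exact hxB
    unfold miss at hmiss ⊢
    rw [hset, card_insert_of_notMem, hmiss]
    rw [mem_filter]
    rintro ⟨_, h⟩
    exact h h2

/-- pairs `(a', a'')` that can undo a switch at a given missed position -/
def backS (A B : Finset (Fin m)) (π : Equiv.Perm (Fin m)) : Finset (Fin m × Fin m) :=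
  univ.filter (fun p => p.1 ∉ A ∧ π p.2 ∈ B ∧ (p.2 ∈ A → π p.1 ∈ B))

theorem card_backS (A B : Finset (Fin m)) (π : Equiv.Perm (Fin m)) (i : ℕ) (hi : miss A B π = i)
    (hAB : A.card ≤ B.card) : (backS A B π).card ≤ (B.card + i - A.card) * (m - i) := by
  set P1 := A.filter (fun x => π x ∈ B) with hP1
  set P3 := (Aᶜ).filter (fun x => π x ∈ B) with hP3
  have h1 : P1.card + i = A.card := by
    have := card_filter_add_card_filter_not (s := A) (fun a => π a ∈ B)
    have hc5 : (A.filter (fun x => π x ∉ B)).card = i := hi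
    rw [← hP1] at this
    omega
  have h2 : P1.card + P3.card = B.card := by
    have e : P1 ∪ P3 = univ.filter (fun x => π x ∈ B) := by
      rw [hP1, hP3, ← filter_union, union_compl]
    have d : Disjoint P1 P3 := disjoint_filter_filter disjoint_compl_right
    rw [← card_union_of_disjoint d, e, card_row π (fun b => b ∈ B)]
    congr 1
    ext b
    simp
  have h3 : backS A B π ⊆ (Aᶜ ×ˢ P3) ∪ (P3 ×ˢ P1) := by
    rintro ⟨a', a''⟩ h
    unfold backS at h
    rw [mem_filter] at h
    obtain ⟨_, h1, h2, h3⟩ := h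
    simp only at h1 h2 h3
    rw [mem_union, mem_product, mem_product, hP3, hP1, mem_filter, mem_filter, mem_filter,
      mem_compl, mem_compl]
    by_cases h4 : a'' ∈ A
    · right
      exact ⟨⟨h1, h3 h4⟩, h4, h2⟩
    · left
      exact ⟨h1, h4, h2⟩
  have h4 := (card_le_card h3).trans (card_union_le _ _)
  rw [card_product, card_product, card_compl, Fintype.card_fin] at h4
  have hAm : A.card ≤ m := by simpa using card_le_univ A
  have h5 : P3.card = B.card + i - A.card := by omega
  have h6 : (m - A.card) + P1.card = m - i := by omega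
  calc (backS A B π).card ≤ (m - A.card) * P3.card + P3.card * P1.card := h4
    _ = P3.card * ((m - A.card) + P1.card) := by ring
    _ = (B.card + i - A.card) * (m - i) := by rw [h5, h6]

theorem switch_ineq (H : Fin m → Fin m → Prop) [∀ i b, Decidable (H i b)] (A B : Finset (Fin m))
    (hAB : A.card ≤ B.card)
    (δ j : ℕ) (hrow : ∀ i, δ ≤ (univ.filter (fun b => H i b)).card)
    (hcol : ∀ b, δ ≤ (univ.filter (fun i => H i b)).card) :
    (cls H A B j).card * ((A.card - j) * ((δ - B.card - j) * (2 * δ - m - 2 - j))) ≤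
      (cls H A B (j + 1)).card *
        ((j + 1) * ((B.card + (j + 1) - A.card) * (m - (j + 1)))) := by
  classical
  set X := (cls H A B j).sigma (fun π => univ.filter
    (fun p : Fin m × Fin m × Fin m => Val H A B π p.1 p.2.1 p.2.2)) with hX
  set Y := (cls H A B (j + 1)).sigma (fun π => (A.filter (fun x => π x ∉ B)) ×ˢ
    (backS A B π)) with hY
  have hXc : (cls H A B j).card * ((A.card - j) * ((δ - B.card - j) * (2 * δ - m - 2 - j))) ≤ X.card := by
    rw [hX, card_sigma, ← smul_eq_mul, ← sum_const]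
    refine sum_le_sum (fun π hπ => ?_)
    unfold cls at hπ
    rw [mem_filter] at hπ
    exact triple_count H A B δ j hrow hcol π hπ.2.2
  have hYc : Y.card ≤ (cls H A B (j + 1)).card *
      ((j + 1) * ((B.card + (j + 1) - A.card) * (m - (j + 1)))) := by
    rw [hY, card_sigma, ← smul_eq_mul, ← sum_const]
    refine sum_le_sum (fun π hπ => ?_)
    unfold cls at hπ
    rw [mem_filter] at hπ
    have h := hπ.2.2
    have hb := card_backS A B π (j + 1) h hAB
    unfold miss at h
    rw [card_product, h]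
    exact Nat.mul_le_mul_left _ hb
  refine le_trans ?_ hYc
  refine hXc.trans ?_
  refine card_le_card_of_injOn
    (fun q => ⟨q.1 * cyc q.2.1 q.2.2.1 q.2.2.2, q.2⟩) ?_ ?_
  · rintro ⟨π, a, a', a''⟩ hq
    have hq' : (⟨π, a, a', a''⟩ : (_ : Equiv.Perm (Fin m)) × (Fin m × Fin m × Fin m)) ∈ X := hq
    rw [hX, mem_sigma, mem_filter] at hq'
    obtain ⟨hq1, _, hq2⟩ := hq'
    have hs := switch_mem H A B j π hq1 a a' a'' hq2
    show (⟨π * cyc a a' a'', a, a', a''⟩ : (_ : Equiv.Perm (Fin m)) × (Fin m × Fin m × Fin m)) ∈ Y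
    rw [hY, mem_sigma, mem_product, mem_filter]
    refine ⟨hs.1, ⟨hq2.1, hs.2⟩, ?_⟩
    obtain ⟨h1, h2, h3, h4, h5, h6, h7, h8, h9, h10⟩ := hq2
    simp only at h1 h2 h3 h4 h5 h6 h7 h8 h9 h10
    have e2 : (π * cyc a a' a'') a' = π a'' := by rw [Equiv.Perm.mul_apply, cyc_2 h6 h7]
    have e3 : (π * cyc a a' a'') a'' = π a := by rw [Equiv.Perm.mul_apply, cyc_3]
    unfold backS
    rw [mem_filter]
    refine ⟨mem_univ _, h3, ?_, ?_⟩
    · simp only
      rw [e3]
      exact h2
    · simp only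
      intro h
      rw [e2]
      by_contra hc
      exact h10 ⟨h, hc⟩
  · rintro ⟨π, a, a', a''⟩ _ ⟨ρ, b, b', b''⟩ _ heq
    simp only [Sigma.mk.injEq, heq_eq_eq, Prod.mk.injEq] at heq
    obtain ⟨h1, rfl, rfl, rfl⟩ := heq
    have := mul_right_cancel h1
    subst this
    rfl

end Pool.Agent.Helper34.CP
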