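import Pool.Agent.Helper34.CP.Core

set_option autoImplicit false

namespace Pool.Agent.Helper34.CP

open Finset

/-- a cell of the table: upper end, lower end, thresholds -/
abbrev Cell := ℕ × ℕ × List ℕ

/-- find the thresholds for `q` -/
def look (y q : ℕ) : List Cell → List ℕ
  | [] => []
  | (_, p, ts) :: rest => if p * y ≤ q then ts else look y q rest

/-- consecutive cells -/
def chainOK : ℕ → ℕ → List Cell → Bool
  | P, pl, [] => decide (P ≤ pl)
  | P, pl, (P', p, _) :: rest => (P == P') && chainOK p pl rest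

theorem look_spec (y : ℕ) (pl : ℕ) (cs : List Cell) : ∀ (P : ℕ), chainOK P pl cs = true →
    ∀ q, q < P * y ∨ (q ≤ P * y ∧ 0 < cs.length) → pl * y ≤ q →
    ∃ c ∈ cs, c.2.1 * y ≤ q ∧ q ≤ c.1 * y ∧ look y q cs = c.2.2 := by
  induction cs with
  | nil =>
    intro P hP q hq hpl
    unfold chainOK at hP
    have h1 : P ≤ pl := by simpa using hP
    have h2 : P * y ≤ pl * y := Nat.mul_le_mul_right _ h1
    rcases hq with h | ⟨_, h⟩
    · omega
    · simp at h
  | cons c rest ih =>
    intro P hP q hq hpl
    obtain ⟨P', p, ts⟩ := c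
    unfold chainOK at hP
    rw [Bool.and_eq_true] at hP
    obtain ⟨h1, h2⟩ := hP
    have h1' : P = P' := by simpa using h1
    have hqP : q ≤ P * y := by
      rcases hq with h | ⟨h, _⟩ <;> omega
    by_cases hpq : p * y ≤ q
    · refine ⟨(P', p, ts), List.mem_cons_self, hpq, by rw [← h1']; exact hqP, ?_⟩
      simp [look, hpq]
    · push Not at hpq
      obtain ⟨c, hc, h3, h4, h5⟩ := ih p h2 q (Or.inl hpq) hpl
      refine ⟨c, List.mem_cons_of_mem _ hc, h3, h4, ?_⟩
      rw [← h5]
      have : ¬ (p * y ≤ q) := by omega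
      simp [look, this]

/-- monotone list of the right length -/
def monoOK : List ℕ → Bool
  | [] => true
  | t :: ts => decide (ts.headD 0 ≤ t) && monoOK ts

theorem mono_spec (ts : List ℕ) (h : monoOK ts = true) (i : ℕ) :
    ts.getD (i + 1) 0 ≤ ts.getD i 0 := by
  induction ts generalizing i with
  | nil => simp
  | cons t ts ih =>
    unfold monoOK at h
    rw [Bool.and_eq_true] at h
    obtain ⟨h1, h2⟩ := h
    have h1' : ts.headD 0 ≤ t := by simpa using h1
    cases i with
    | zero =>
      cases ts with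
      | nil => simp
      | cons s ts => simpa using h1'
    | succ i =>
      have := ih h2 i
      simpa using this

/-- the layer sum -/
def lsum : List ℕ → List ℕ → ℕ → ℕ
  | t :: ts, l :: ls, X => (t - ts.headD 0) * (l - X) + lsum ts ls X
  | _, _, _ => 0

theorem lsum_spec (ls : List ℕ) : ∀ (ts : List ℕ) (X : ℕ), ts.length = ls.length →
    ∑ i ∈ range ls.length, (ts.getD i 0 - ts.getD (i + 1) 0) * (ls.getD i 0 - X) = lsum ts ls X := by
  induction ls with
  | nil =>
    intro ts X h
    cases ts with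
    | nil => simp [lsum]
    | cons t ts => simp at h
  | cons l ls ih =>
    intro ts X h
    cases ts with
    | nil => simp at h
    | cons t ts =>
      have h' : ts.length = ls.length := by simpa using h
      rw [List.length_cons, sum_range_succ']
      have := ih ts X h'
      simp only [List.getD_cons_succ, List.getD_cons_zero]
      rw [this]
      rw [show lsum (t :: ts) (l :: ls) X = (t - ts.headD 0) * (l - X) + lsum ts ls X from rfl]
      have h2 : (t :: ts).getD 1 0 = ts.headD 0 := by
        cases ts <;> simp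
      have h3 : ts.getD 0 0 = ts.headD 0 := by
        cases ts <;> simp
      rw [h3, Nat.add_comm]

/-- integer check for a single threshold -/
def rowChk (N xn xd p l t : ℕ) : Bool :=
  decide (t = 0) || (decide (2 * (t + 1) ≤ N) &&
    decide ((t + 1) * (N + 2 + t - 2 * p) * (N - t) * xd ≤
      xn * ((p - t - 1) * (p - l - t - 2) * (N - 2 * l - t - 2))))

def rowsChk (N xn xd p : ℕ) : List ℕ → List ℕ → Bool
  | t :: ts, l :: ls => rowChk N xn xd p l t && rowsChk N xn xd p ts ls
  | _, _ => true

theorem rowsChk_spec (N xn xd p : ℕ) (ls : List ℕ) : ∀ (ts : List ℕ), ts.length = ls.length →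
    rowsChk N xn xd p ts ls = true → ∀ i < ls.length,
    rowChk N xn xd p (ls.getD i 0) (ts.getD i 0) = true := by
  induction ls with
  | nil => intro ts _ _ i hi; simp at hi
  | cons l ls ih =>
    intro ts hlen h i hi
    cases ts with
    | nil => simp at hlen
    | cons t ts =>
      unfold rowsChk at h
      rw [Bool.and_eq_true] at h
      cases i with
      | zero => simpa using h.1
      | succ i =>
        have := ih ts (by simpa using hlen) h.2 i (by simpa using hi)
        simpa using this

theorem row_scaled (N xn xd y m ρ p l t q Q : ℕ) (hm : m = N * y + ρ) (hρ : ρ < N) (hNy : N ≤ y)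
    (hy2 : 2 ≤ y) (hqQ : q + Q = m + 1) (hpq : p * y ≤ q) (hxd : 0 < xd)
    (hp : 2 * p ≤ N + 2 + t) (ht : t ≤ N)
    (hchk : (t + 1) * (N + 2 + t - 2 * p) * (N - t) * xd ≤
      xn * ((p - t - 1) * (p - l - t - 2) * (N - 2 * l - t - 2))) :
    RowOK m (m - l * y) q Q ((t + 1) * y) ((xn : ℝ) / xd) := by
  have hA1 : Q + (t + 1) * y - q ≤ (N + 2 + t - 2 * p) * y := by
    have e1 : (N + 2 + t - 2 * p) * y + 2 * (p * y) = N * y + 2 * y + t * y := by
      have : N + 2 + t = (N + 2 + t - 2 * p) + 2 * p := by omega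
      calc (N + 2 + t - 2 * p) * y + 2 * (p * y) = ((N + 2 + t - 2 * p) + 2 * p) * y := by ring
        _ = (N + 2 + t) * y := by rw [← this]
        _ = N * y + 2 * y + t * y := by ring
    have e2 : (t + 1) * y = t * y + y := by ring
    rw [e2]
    omega
  have hA2 : m - (t + 1) * y ≤ (N - t) * y := by
    have e1 : (N - t) * y + t * y = N * y := by
      rw [← Nat.add_mul]; congr 1; omega
    have e2 : (t + 1) * y = t * y + y := by ring
    rw [e2]
    omega
  have hB1 : (p - t - 1) * y ≤ q - (t + 1) * y := by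
    have e1 : (p - t - 1) * y = p * y - t * y - 1 * y := by
      rw [Nat.sub_mul, Nat.sub_mul]
    have e2 : (t + 1) * y = t * y + y := by ring
    rw [e1, e2]
    omega
  have hB2 : (p - l - t - 2) * y ≤ m - l * y - Q - (t + 1) * y := by
    have e1 : (p - l - t - 2) * y = p * y - l * y - t * y - 2 * y := by
      rw [Nat.sub_mul, Nat.sub_mul, Nat.sub_mul]
    have e2 : (t + 1) * y = t * y + y := by ring
    rw [e1, e2]
    omega
  have hB3 : (N - 2 * l - t - 2) * y ≤ 2 * (m - l * y) - m - 2 - (t + 1) * y := by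
    have e1 : (N - 2 * l - t - 2) * y = N * y - 2 * l * y - t * y - 2 * y := by
      rw [Nat.sub_mul, Nat.sub_mul, Nat.sub_mul]
    have e2 : (t + 1) * y = t * y + y := by ring
    have e3 : 2 * l * y = 2 * (l * y) := by ring
    rw [e1, e2, e3]
    omega
  unfold RowOK
  have hmain : ((t + 1) * y) * ((Q + (t + 1) * y - q) * (m - (t + 1) * y)) * xd ≤
      xn * ((q - (t + 1) * y) * ((m - l * y - Q - (t + 1) * y) *
        (2 * (m - l * y) - m - 2 - (t + 1) * y))) := by
    calc ((t + 1) * y) * ((Q + (t + 1) * y - q) * (m - (t + 1) * y)) * xd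
        ≤ ((t + 1) * y) * (((N + 2 + t - 2 * p) * y) * ((N - t) * y)) * xd :=
          Nat.mul_le_mul_right _ (Nat.mul_le_mul_left _ (Nat.mul_le_mul hA1 hA2))
      _ = y ^ 3 * ((t + 1) * (N + 2 + t - 2 * p) * (N - t) * xd) := by ring
      _ ≤ y ^ 3 * (xn * ((p - t - 1) * (p - l - t - 2) * (N - 2 * l - t - 2))) :=
          Nat.mul_le_mul_left _ hchk
      _ = xn * (((p - t - 1) * y) * (((p - l - t - 2) * y) * ((N - 2 * l - t - 2) * y))) := by ring
      _ ≤ _ := Nat.mul_le_mul_left _ (Nat.mul_le_mul hB1 (Nat.mul_le_mul hB2 hB3))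
  have hxd' : (0 : ℝ) < xd := by exact_mod_cast hxd
  rw [div_mul_eq_mul_div, le_div_iff₀ hxd']
  exact_mod_cast hmain

end Pool.Agent.Helper34.CP
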